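import Mathlib

/-! Noisy min-max recursion on the binary tree: phases with respect to the family of fixed points. -/

set_option autoImplicit false

namespace Pool.Agent.R975.A87

open Set Filter Topology

/-- the map `h` on the reals -/
noncomputable def h (p : ℝ) : ℝ := 2 * √p - p

noncomputable def hv (p : ℝ) : ℝ := (1 - √(1 - p)) ^ 2

lemma one_sub_h {p : ℝ} (hp : 0 ≤ p) : 1 - h p = (1 - √p) ^ 2 := by
  have := Real.sq_sqrt hp
  unfold h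
  nlinarith

lemma h_mem {p : ℝ} (hp : p ∈ Icc (0 : ℝ) 1) : h p ∈ Icc (0 : ℝ) 1 := by
  have h1 := one_sub_h hp.1
  have h2 : √p ≤ 1 := Real.sqrt_le_one.mpr hp.2
  have h3 := Real.sqrt_nonneg p
  constructor
  · nlinarith
  · nlinarith [sq_nonneg (1 - √p)]

lemma hv_mem {p : ℝ} (hp : p ∈ Icc (0 : ℝ) 1) : hv p ∈ Icc (0 : ℝ) 1 := by
  have h2 : √(1 - p) ≤ 1 := Real.sqrt_le_one.mpr (by linarith [hp.1])
  have h3 := Real.sqrt_nonneg (1 - p)
  unfold hv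
  constructor
  · positivity
  · nlinarith

lemma hv_h {p : ℝ} (hp : p ∈ Icc (0 : ℝ) 1) : hv (h p) = p := by
  have h2 : √p ≤ 1 := Real.sqrt_le_one.mpr hp.2
  unfold hv
  rw [one_sub_h hp.1, Real.sqrt_sq (by linarith)]
  ring_nf
  exact Real.sq_sqrt hp.1

lemma h_hv {p : ℝ} (hp : p ∈ Icc (0 : ℝ) 1) : h (hv p) = p := by
  have h2 : √(1 - p) ≤ 1 := Real.sqrt_le_one.mpr (by linarith [hp.1])
  have h4 : √(hv p) = 1 - √(1 - p) := by
    unfold hv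
    exact Real.sqrt_sq (by linarith)
  have h5 := Real.sq_sqrt (show 0 ≤ 1 - p by linarith [hp.2])
  unfold h
  rw [h4]
  unfold hv
  nlinarith

lemma h_sq {s : ℝ} (hs : 0 ≤ s) : h (s ^ 2) = 2 * s - s ^ 2 := by
  unfold h
  rw [Real.sqrt_sq hs]

lemma h_mono {p q : ℝ} (hp : 0 ≤ p) (hpq : p ≤ q) (hq : q ≤ 1) : h p ≤ h q := by
  have h1 := one_sub_h hp
  have h2 := one_sub_h (hp.trans hpq)
  have h3 : √p ≤ √q := Real.sqrt_le_sqrt hpq
  have h4 : √q ≤ 1 := Real.sqrt_le_one.mpr hq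
  nlinarith

lemma hv_mono {p q : ℝ} (hp : 0 ≤ p) (hpq : p ≤ q) (hq : q ≤ 1) : hv p ≤ hv q := by
  have h3 : √(1 - q) ≤ √(1 - p) := Real.sqrt_le_sqrt (by linarith)
  have h4 : √(1 - p) ≤ 1 := Real.sqrt_le_one.mpr (by linarith)
  unfold hv
  nlinarith

/-- `h` as an order isomorphism of the unit interval. -/
noncomputable def hI : unitInterval ≃o unitInterval where
  toFun p := ⟨h p, h_mem p.2⟩
  invFun p := ⟨hv p, hv_mem p.2⟩
  left_inv p := Subtype.ext (hv_h p.2)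
  right_inv p := Subtype.ext (h_hv p.2)
  map_rel_iff' := by
    intro a b
    constructor
    · intro hab
      have := hv_mono (h_mem a.2).1 (show h (a : ℝ) ≤ h b from hab) (h_mem b.2).2
      rw [hv_h a.2, hv_h b.2] at this
      exact this
    · intro hab
      exact h_mono a.2.1 hab b.2.2

lemma hI_coe (p : unitInterval) : ((hI p : unitInterval) : ℝ) = h p := rfl

lemma hI_symm_coe (p : unitInterval) : ((hI⁻¹ p : unitInterval) : ℝ) = hv p := rfl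

/-! ### The recursion -/

/-- half steps and the full step -/
noncomputable def E (x y : ℝ) : ℝ := 1 - (1 - (x + y) / 2) ^ 2

noncomputable def Tt (x y : ℝ) : ℝ := ((x + y) / 2) ^ 2

noncomputable def g (x y z : ℝ) : ℝ := Tt (E x y) (E y z)

lemma E_mem {x y : ℝ} (hx : x ∈ Icc (0 : ℝ) 1) (hy : y ∈ Icc (0 : ℝ) 1) : E x y ∈ Icc (0 : ℝ) 1 := by
  obtain ⟨h1, h2⟩ := hx
  obtain ⟨h3, h4⟩ := hy
  unfold E
  constructor <;> nlinarith

lemma Tt_mem {x y : ℝ} (hx : x ∈ Icc (0 : ℝ) 1) (hy : y ∈ Icc (0 : ℝ) 1) :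
    Tt x y ∈ Icc (0 : ℝ) 1 := by
  obtain ⟨h1, h2⟩ := hx
  obtain ⟨h3, h4⟩ := hy
  unfold Tt
  constructor <;> nlinarith

lemma g_mem {x y z : ℝ} (hx : x ∈ Icc (0 : ℝ) 1) (hy : y ∈ Icc (0 : ℝ) 1)
    (hz : z ∈ Icc (0 : ℝ) 1) : g x y z ∈ Icc (0 : ℝ) 1 := Tt_mem (E_mem hx hy) (E_mem hy hz)

lemma E_mono {x y x' y' : ℝ} (hx' : x' ≤ 1) (hy' : y' ≤ 1)
    (hxx : x ≤ x') (hyy : y ≤ y') : E x y ≤ E x' y' := by
  unfold E
  nlinarith

lemma g_mono {x y z x' y' z' : ℝ} (hx : 0 ≤ x) (hy : 0 ≤ y) (hz : 0 ≤ z)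
    (hx' : x' ≤ 1) (hy' : y' ≤ 1) (hz' : z' ≤ 1)
    (hxx : x ≤ x') (hyy : y ≤ y') (hzz : z ≤ z') : g x y z ≤ g x' y' z' := by
  have h1 := E_mono hx' hy' hxx hyy
  have h2 := E_mono hy' hz' hyy hzz
  have h3 := (E_mem ⟨hx, hxx.trans hx'⟩ ⟨hy, hyy.trans hy'⟩).1
  have h4 := (E_mem ⟨hy, hyy.trans hy'⟩ ⟨hz, hzz.trans hz'⟩).1
  unfold g Tt
  nlinarith

lemma g_strict {x y z x' y' z' : ℝ} (hx : 0 ≤ x) (hy : 0 ≤ y) (hz : 0 ≤ z)
    (hx' : x' ≤ 1) (hy' : y' ≤ 1) (hz' : z' ≤ 1)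
    (hxx : x ≤ x') (hyy : y ≤ y') (hzz : z ≤ z') (heq : g x y z = g x' y' z') : x = x' := by
  by_contra hne
  have hlt : x < x' := lt_of_le_of_ne hxx hne
  have h1 : E x y < E x' y' := by
    unfold E
    nlinarith
  have h2 := E_mono hy' hz' hyy hzz
  have h3 := (E_mem ⟨hx, hxx.trans hx'⟩ ⟨hy, hyy.trans hy'⟩).1
  have h4 := (E_mem ⟨hy, hyy.trans hy'⟩ ⟨hz, hzz.trans hz'⟩).1
  unfold g Tt at heq
  nlinarith

/-- state space -/
abbrev St : Type := ℤ → unitInterval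

noncomputable def Psi (f : St) : St := fun k =>
  ⟨g (f (k - 1)) (f k) (f (k + 1)), g_mem (f (k - 1)).2 (f k).2 (f (k + 1)).2⟩

/-- the steepness property -/
def Steep (f : St) : Prop := ∀ k, hI (f k) ≤ f (k + 1)

lemma half {p q r : ℝ} (hp : p ∈ Icc (0 : ℝ) 1) (hq : q ∈ Icc (0 : ℝ) 1)
    (h1 : h p ≤ q) (h2 : h q ≤ r) :
    h (((p + q) / 2) ^ 2) ≤ ((q + r) / 2) ^ 2 := by
  have hs0 : 0 ≤ (p + q) / 2 := by linarith [hp.1, hq.1]
  have e1 : √p ≤ (p + q) / 2 := by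
    have : h p = 2 * √p - p := rfl
    linarith
  have e2 : p ≤ ((p + q) / 2) ^ 2 := by
    calc p = (√p) ^ 2 := (Real.sq_sqrt hp.1).symm
      _ ≤ _ := pow_le_pow_left₀ (Real.sqrt_nonneg p) e1 2
  have e3 : √q ≤ (q + r) / 2 := by
    have : h q = 2 * √q - q := rfl
    linarith
  have e4 : q ≤ ((q + r) / 2) ^ 2 := by
    calc q = (√q) ^ 2 := (Real.sq_sqrt hq.1).symm
      _ ≤ _ := pow_le_pow_left₀ (Real.sqrt_nonneg q) e3 2
  rw [h_sq hs0]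
  linarith

lemma E_eq {x y : ℝ} (hx : 0 ≤ x) (hy : 0 ≤ y) : E x y = h (((x + y) / 2) ^ 2) := by
  rw [h_sq (by linarith)]
  unfold E
  ring

lemma steep_Psi {f : St} (hf : Steep f) : Steep (Psi f) := by
  intro k
  have hf' : ∀ k, h (f k) ≤ f (k + 1) := hf
  show h (g (f (k - 1)) (f k) (f (k + 1))) ≤ g (f (k + 1 - 1)) (f (k + 1)) (f (k + 1 + 1))
  rw [show k + 1 - 1 = k by ring]
  have h0 : h (f (k - 1)) ≤ f k := by
    have := hf' (k - 1)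
    rwa [show k - 1 + 1 = k by ring] at this
  have key : ∀ {a b c : ℝ}, a ∈ Icc (0 : ℝ) 1 → b ∈ Icc (0 : ℝ) 1 → c ∈ Icc (0 : ℝ) 1 →
      h a ≤ b → h b ≤ c → h (E a b) ≤ E b c := by
    intro a b c ha hb hc hab hbc
    rw [E_eq ha.1 hb.1, E_eq hb.1 hc.1]
    have h1 := half ha hb hab hbc
    have hs : ((a + b) / 2) ^ 2 ∈ Icc (0 : ℝ) 1 := by
      obtain ⟨h1, h2⟩ := ha
      obtain ⟨h3, h4⟩ := hb
      constructor <;> nlinarith
    have ht : ((b + c) / 2) ^ 2 ∈ Icc (0 : ℝ) 1 := by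
      obtain ⟨h1, h2⟩ := hc
      obtain ⟨h3, h4⟩ := hb
      constructor <;> nlinarith
    exact h_mono (h_mem hs).1 h1 ht.2
  have e1 := key (f (k - 1)).2 (f k).2 (f (k + 1)).2 h0 (hf' k)
  have e2 := key (f k).2 (f (k + 1)).2 (f (k + 1 + 1)).2 (hf' k) (hf' (k + 1))
  exact half (E_mem (f (k - 1)).2 (f k).2) (E_mem (f k).2 (f (k + 1)).2) e1 e2

/-- phase at `k` -/
noncomputable def ph (f : St) (k : ℤ) : unitInterval := (hI ^ (-k)) (f k)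

lemma ph_mono {f : St} (hf : Steep f) : Monotone (ph f) := by
  refine monotone_int_of_le_succ fun k => ?_
  unfold ph
  have h1 : (hI ^ (-k)) (f k) = (hI ^ (-(k + 1))) (hI (f k)) := by
    rw [show (-k : ℤ) = -(k + 1) + 1 by ring, zpow_add, zpow_one]
    rfl
  rw [h1]
  exact (hI ^ (-(k + 1))).monotone (hf k)

/-- the family of fixed points: `g (p, h p, h (h p)) = h p` -/
lemma g_family {p : ℝ} (hp : p ∈ Icc (0 : ℝ) 1) : g p (h p) (h (h p)) = h p := by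
  have e1 : E p (h p) = h p := by
    rw [E_eq hp.1 (h_mem hp).1]
    have : (p + h p) / 2 = √p := by unfold h; ring
    rw [this, Real.sq_sqrt hp.1]
  have e2 : E (h p) (h (h p)) = h (h p) := by
    have hp' := h_mem hp
    rw [E_eq hp'.1 (h_mem hp').1]
    have : (h p + h (h p)) / 2 = √(h p) := by
      conv_lhs => rw [show h (h p) = 2 * √(h p) - h p from rfl]
      ring
    rw [this, Real.sq_sqrt hp'.1]
  unfold g
  rw [e1, e2]
  unfold Tt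
  have : (h p + h (h p)) / 2 = √(h p) := by
    conv_lhs => rw [show h (h p) = 2 * √(h p) - h p from rfl]
    ring
  rw [this, Real.sq_sqrt (h_mem hp).1]

/-! ### contraction of `h` and `hv` in logarithmic coordinates -/

lemma hv_contr {p q c : ℝ} (hp : p ∈ Icc (0 : ℝ) 1) (hq : q ∈ Icc (0 : ℝ) 1) (hc : 0 ≤ c)
    (H : (1 - p) * Real.exp (-c) ≤ 1 - q) :
    (1 - hv p) * Real.exp (-(c / 2)) ≤ 1 - hv q := by
  have hvp := hv_mem hp
  have hvq := hv_mem hq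
  set P := hv p with hP
  set Q := hv q with hQ
  have eP : (1 - √P) ^ 2 = 1 - p := by
    rw [← one_sub_h hvp.1, hP, h_hv hp]
  have eQ : (1 - √Q) ^ 2 = 1 - q := by
    rw [← one_sub_h hvq.1, hQ, h_hv hq]
  have hsP : √P ≤ 1 := Real.sqrt_le_one.mpr hvp.2
  have hsQ : √Q ≤ 1 := Real.sqrt_le_one.mpr hvq.2
  have hexp1 : Real.exp (-(c / 2)) ≤ 1 := Real.exp_le_one_iff.2 (by linarith)
  have hexp0 : 0 < Real.exp (-(c / 2)) := Real.exp_pos _
  rcases le_or_gt Q P with hle | hlt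
  · have : 0 ≤ 1 - P := by linarith [hvp.2]
    nlinarith
  · have hee : Real.exp (-c) = Real.exp (-(c / 2)) ^ 2 := by
      rw [← Real.exp_nat_mul]
      congr 1
      push_cast
      ring
    have h1 : ((1 - √P) * Real.exp (-(c / 2))) ^ 2 ≤ (1 - √Q) ^ 2 := by
      rw [eQ, mul_pow, eP, ← hee]
      exact H
    have h2 : (1 - √P) * Real.exp (-(c / 2)) ≤ 1 - √Q :=
      (sq_le_sq₀ (mul_nonneg (by linarith) hexp0.le) (by linarith)).1 h1
    have h3 : √P ≤ √Q := Real.sqrt_le_sqrt hlt.le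
    have h4 := Real.sq_sqrt hvp.1
    have h5 := Real.sq_sqrt hvq.1
    have e1 : 1 - P = (1 - √P) * (1 + √P) := by nlinarith
    have e2 : 1 - Q = (1 - √Q) * (1 + √Q) := by nlinarith
    rw [e1, e2]
    have h6 := Real.sqrt_nonneg P
    calc (1 - √P) * (1 + √P) * Real.exp (-(c / 2))
        = ((1 - √P) * Real.exp (-(c / 2))) * (1 + √P) := by ring
      _ ≤ (1 - √Q) * (1 + √P) := mul_le_mul_of_nonneg_right h2 (by linarith)
      _ ≤ (1 - √Q) * (1 + √Q) := mul_le_mul_of_nonneg_left (by linarith) (by linarith)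

lemma h_contr {p q c : ℝ} (hp : p ∈ Icc (0 : ℝ) 1) (hq : q ∈ Icc (0 : ℝ) 1) (hc : 0 ≤ c)
    (H : p * Real.exp (-c) ≤ q) : h p * Real.exp (-(c / 2)) ≤ h q := by
  have hexp1 : Real.exp (-(c / 2)) ≤ 1 := Real.exp_le_one_iff.2 (by linarith)
  have hexp0 : 0 < Real.exp (-(c / 2)) := Real.exp_pos _
  rcases le_or_gt p q with hle | hlt
  · have h1 := h_mono hp.1 hle hq.2
    have h2 := (h_mem hp).1
    nlinarith
  · have hee : Real.exp (-c) = Real.exp (-(c / 2)) ^ 2 := by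
      rw [← Real.exp_nat_mul]
      congr 1
      push_cast
      ring
    have h4 := Real.sq_sqrt hp.1
    have h5 := Real.sq_sqrt hq.1
    have h1 : (√p * Real.exp (-(c / 2))) ^ 2 ≤ (√q) ^ 2 := by
      rw [h5, mul_pow, h4, ← hee]
      exact H
    have h2 : √p * Real.exp (-(c / 2)) ≤ √q :=
      (sq_le_sq₀ (mul_nonneg (Real.sqrt_nonneg _) hexp0.le) (Real.sqrt_nonneg _)).1 h1
    have h3 : √q ≤ √p := Real.sqrt_le_sqrt hlt.le
    have h6 : √p ≤ 1 := Real.sqrt_le_one.mpr hp.2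
    have e1 : h p = √p * (2 - √p) := by unfold h; nlinarith
    have e2 : h q = √q * (2 - √q) := by unfold h; nlinarith
    rw [e1, e2]
    calc √p * (2 - √p) * Real.exp (-(c / 2)) = (√p * Real.exp (-(c / 2))) * (2 - √p) := by ring
      _ ≤ √q * (2 - √p) := mul_le_mul_of_nonneg_right h2 (by linarith)
      _ ≤ √q * (2 - √q) := mul_le_mul_of_nonneg_left (by linarith) (Real.sqrt_nonneg _)

lemma hv_contr_iter (k : ℕ) : ∀ {p q : unitInterval} {c : ℝ}, 0 ≤ c →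
    (1 - (p : ℝ)) * Real.exp (-c) ≤ 1 - q →
    (1 - ((hI ^ (-(k : ℤ))) p : ℝ)) * Real.exp (-(c / 2 ^ k)) ≤ 1 - ((hI ^ (-(k : ℤ))) q : ℝ) := by
  induction k with
  | zero => intro p q c hc H; simpa using H
  | succ k ih =>
    intro p q c hc H
    have h1 := hv_contr p.2 q.2 hc H
    have h2 := ih (p := hI⁻¹ p) (q := hI⁻¹ q) (c := c / 2) (by positivity) h1
    have e : ∀ p : unitInterval, (hI ^ (-((k + 1 : ℕ) : ℤ))) p = (hI ^ (-(k : ℤ))) (hI⁻¹ p) := by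
      intro p
      rw [show (-((k + 1 : ℕ) : ℤ)) = -(k : ℤ) + (-1) by push_cast; ring, zpow_add, zpow_neg_one]
      rfl
    rw [e, e, pow_succ', ← div_div]
    exact h2

lemma h_contr_iter (k : ℕ) : ∀ {p q : unitInterval} {c : ℝ}, 0 ≤ c →
    (p : ℝ) * Real.exp (-c) ≤ q →
    ((hI ^ (k : ℤ)) p : ℝ) * Real.exp (-(c / 2 ^ k)) ≤ ((hI ^ (k : ℤ)) q : ℝ) := by
  induction k with
  | zero => intro p q c hc H; simpa using H
  | succ k ih =>
    intro p q c hc H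
    have h1 := h_contr p.2 q.2 hc H
    have h2 := ih (p := hI p) (q := hI q) (c := c / 2) (by positivity) h1
    have e : ∀ p : unitInterval, (hI ^ ((k + 1 : ℕ) : ℤ)) p = (hI ^ (k : ℤ)) (hI p) := by
      intro p
      rw [show ((k + 1 : ℕ) : ℤ) = (k : ℤ) + 1 by push_cast; ring, zpow_add, zpow_one]
      rfl
    rw [e, e, pow_succ', ← div_div]
    exact h2

lemma exp_two : Real.exp (-2) ≤ 9 / 64 := by
  have h1 : (2.7 : ℝ) < Real.exp 1 := lt_trans (by norm_num) Real.exp_one_gt_d9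
  have h2 : Real.exp 2 = Real.exp 1 ^ 2 := by
    rw [← Real.exp_nat_mul]; norm_num
  rw [Real.exp_neg, h2]
  have h3 : (64 / 9 : ℝ) ≤ Real.exp 1 ^ 2 := by nlinarith
  calc (Real.exp 1 ^ 2)⁻¹ ≤ (64 / 9 : ℝ)⁻¹ := inv_anti₀ (by norm_num) h3
    _ = 9 / 64 := by norm_num

/-- right tail estimate -/
lemma right_raw {x y z : ℝ} (hx : x ∈ Icc (0 : ℝ) 1) (hy : y ∈ Icc (0 : ℝ) 1)
    (hz : z ∈ Icc (0 : ℝ) 1) : (1 - h x) * Real.exp (-2) ≤ 1 - g x y z := by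
  have h1 : g x y z ≤ g x 1 1 := g_mono hx.1 hy.1 hz.1 hx.2 le_rfl le_rfl le_rfl hy.2 hz.2
  have h2 : 1 - h x = (1 - √x) ^ 2 := one_sub_h hx.1
  have h3 : x ≤ √x := by
    have h4 : √x ≤ 1 := Real.sqrt_le_one.mpr hx.2
    have h5 := Real.sq_sqrt hx.1
    have h6 := Real.sqrt_nonneg x
    nlinarith
  have h4 : √x ≤ 1 := Real.sqrt_le_one.mpr hx.2
  have h5 : (1 - √x) ^ 2 ≤ (1 - x) ^ 2 := by nlinarith
  have h6 : 1 - g x 1 1 = (1 - x) ^ 2 * (1 / 4 - (1 - x) ^ 2 / 64) := by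
    unfold g Tt E
    ring
  have h7 : (1 - x) ^ 2 ≤ 1 := by nlinarith [hx.1, hx.2]
  have h8 := exp_two
  have h9 : 0 < Real.exp (-2) := Real.exp_pos _
  rw [h2]
  calc (1 - √x) ^ 2 * Real.exp (-2) ≤ (1 - x) ^ 2 * (9 / 64) :=
        mul_le_mul h5 h8 h9.le (sq_nonneg _)
    _ ≤ (1 - x) ^ 2 * (1 / 4 - (1 - x) ^ 2 / 64) :=
        mul_le_mul_of_nonneg_left (by linarith) (sq_nonneg _)
    _ ≤ 1 - g x y z := by rw [← h6]; linarith

/-- left tail estimate -/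
lemma left_raw {x y z : ℝ} (hx : x ∈ Icc (0 : ℝ) 1) (hy : y ∈ Icc (0 : ℝ) 1)
    (hz : z ∈ Icc (0 : ℝ) 1) : hv z * Real.exp (-2) ≤ g x y z := by
  have h1 : g 0 0 z ≤ g x y z := g_mono le_rfl le_rfl hz.1 hx.2 hy.2 hz.2 hx.1 hy.1 le_rfl
  have h3 : 1 - z ≤ √(1 - z) := by
    have h4 : √(1 - z) ≤ 1 := Real.sqrt_le_one.mpr (by linarith [hz.1])
    have h5 := Real.sq_sqrt (show 0 ≤ 1 - z by linarith [hz.2])
    have h6 := Real.sqrt_nonneg (1 - z)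
    nlinarith
  have h4 : √(1 - z) ≤ 1 := Real.sqrt_le_one.mpr (by linarith [hz.1])
  have h5 : hv z ≤ z ^ 2 := by
    unfold hv
    nlinarith
  have h6 : g 0 0 z = z ^ 2 * ((1 - z / 4) ^ 2 / 4) := by
    unfold g Tt E
    ring
  have h7 : 9 / 64 ≤ (1 - z / 4) ^ 2 / 4 := by nlinarith [hz.1, hz.2]
  have h8 := exp_two
  have h9 : 0 < Real.exp (-2) := Real.exp_pos _
  calc hv z * Real.exp (-2) ≤ z ^ 2 * (9 / 64) :=
        mul_le_mul h5 h8 h9.le (sq_nonneg _)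
    _ ≤ z ^ 2 * ((1 - z / 4) ^ 2 / 4) := mul_le_mul_of_nonneg_left h7 (sq_nonneg _)
    _ ≤ _ := by rw [← h6]; exact h1

lemma ph_right (f : St) (k : ℕ) :
    (1 - (ph f ((k : ℤ) - 1) : ℝ)) * Real.exp (-(2 / 2 ^ k)) ≤ 1 - (ph (Psi f) k : ℝ) := by
  have h1 := right_raw (f ((k : ℤ) - 1)).2 (f k).2 (f (k + 1)).2
  have h2 := hv_contr_iter k (p := hI (f ((k : ℤ) - 1))) (q := Psi f k) (c := 2) (by norm_num) h1
  have e : (hI ^ (-(k : ℤ))) (hI (f ((k : ℤ) - 1))) = ph f ((k : ℤ) - 1) := by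
    unfold ph
    rw [show -((k : ℤ) - 1) = -(k : ℤ) + 1 by ring, zpow_add, zpow_one]
    rfl
  rw [e] at h2
  exact h2

lemma ph_left (f : St) (k : ℕ) :
    (ph f (-(k : ℤ) + 1) : ℝ) * Real.exp (-(2 / 2 ^ k)) ≤ (ph (Psi f) (-(k : ℤ)) : ℝ) := by
  have h1 := left_raw (f (-(k : ℤ) - 1)).2 (f (-(k : ℤ))).2 (f (-(k : ℤ) + 1)).2
  have h2 := h_contr_iter k (p := hI⁻¹ (f (-(k : ℤ) + 1))) (q := Psi f (-(k : ℤ))) (c := 2)
    (by norm_num) h1
  have e : (hI ^ (k : ℤ)) (hI⁻¹ (f (-(k : ℤ) + 1))) = ph f (-(k : ℤ) + 1) := by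
    unfold ph
    rw [show -(-(k : ℤ) + 1) = (k : ℤ) + (-1) by ring, zpow_add, zpow_neg_one]
    rfl
  rw [e] at h2
  have e2 : ph (Psi f) (-(k : ℤ)) = (hI ^ (k : ℤ)) (Psi f (-(k : ℤ))) := by
    unfold ph
    rw [neg_neg]
  rw [e2]
  exact h2

end Pool.Agent.R975.A87
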