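import Mathlib
import Pool.Agent.R975.A87.Base

/-! Noisy min-max recursion on the binary tree: convergence of the distribution functions. -/

set_option autoImplicit false

namespace Pool.Agent.R975.A87

open Set Filter Topology

lemma Psi_iter_succ (f : St) (t : ℕ) : Psi^[t + 1] f = Psi (Psi^[t] f) :=
  Function.iterate_succ_apply' _ _ _

lemma steep_iter {f : St} (hf : Steep f) (t : ℕ) : Steep (Psi^[t] f) := by
  induction t with
  | zero => exact hf
  | succ t ih => rw [Psi_iter_succ]; exact steep_Psi ih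

lemma right_iter (f : St) (K t : ℕ) :
    (1 - (ph f K : ℝ)) * Real.exp (-(2 / 2 ^ K - 2 / 2 ^ (K + t))) ≤
      1 - (ph (Psi^[t] f) (K + t : ℕ) : ℝ) := by
  induction t with
  | zero => simp
  | succ t ih =>
    have h1 := ph_right (Psi^[t] f) (K + t + 1)
    rw [← Psi_iter_succ] at h1
    have e : (((K + t + 1 : ℕ) : ℤ) - 1) = ((K + t : ℕ) : ℤ) := by push_cast; ring
    rw [e] at h1
    refine le_trans ?_ h1
    have h2 := mul_le_mul_of_nonneg_right ih (Real.exp_pos (-(2 / 2 ^ (K + t + 1)))).le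
    refine le_trans (le_of_eq ?_) h2
    rw [mul_assoc, ← Real.exp_add]
    congr 2
    rw [show K + (t + 1) = (K + t) + 1 by ring, pow_succ (2 : ℝ) (K + t)]
    field_simp
    ring

lemma left_iter (f : St) (K t : ℕ) :
    (ph f (-(K : ℤ)) : ℝ) * Real.exp (-(2 / 2 ^ K - 2 / 2 ^ (K + t))) ≤
      (ph (Psi^[t] f) (-((K + t : ℕ) : ℤ)) : ℝ) := by
  induction t with
  | zero => simp
  | succ t ih =>
    have h1 := ph_left (Psi^[t] f) (K + t + 1)
    rw [← Psi_iter_succ] at h1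
    have e : (-((K + t + 1 : ℕ) : ℤ) + 1) = -((K + t : ℕ) : ℤ) := by push_cast; ring
    rw [e] at h1
    refine le_trans ?_ h1
    have h2 := mul_le_mul_of_nonneg_right ih (Real.exp_pos (-(2 / 2 ^ (K + t + 1)))).le
    refine le_trans (le_of_eq ?_) h2
    rw [mul_assoc, ← Real.exp_add]
    congr 2
    rw [show K + (t + 1) = (K + t) + 1 by ring, pow_succ (2 : ℝ) (K + t)]
    field_simp
    ring

/-- upper stability -/
lemma right_stab {f : St} (hf : Steep f) (K t : ℕ) {k : ℤ} (hk : k ≤ K + t) :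
    (1 - (ph f K : ℝ)) * Real.exp (-(2 / 2 ^ K)) ≤ 1 - (ph (Psi^[t] f) k : ℝ) := by
  have h1 := right_iter f K t
  have h2 : ph (Psi^[t] f) k ≤ ph (Psi^[t] f) (K + t : ℕ) :=
    ph_mono (steep_iter hf t) (by push_cast; exact hk)
  have h2' : (ph (Psi^[t] f) k : ℝ) ≤ ph (Psi^[t] f) (K + t : ℕ) := h2
  have h3 : Real.exp (-(2 / 2 ^ K)) ≤ Real.exp (-(2 / 2 ^ K - 2 / 2 ^ (K + t))) := by
    apply Real.exp_le_exp.2
    have : (0 : ℝ) ≤ 2 / 2 ^ (K + t) := by positivity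
    linarith
  have h4 : 0 ≤ 1 - (ph f K : ℝ) := by linarith [(ph f K).2.2]
  have h5 := mul_le_mul_of_nonneg_left h3 h4
  linarith

/-- lower stability -/
lemma left_stab {f : St} (hf : Steep f) (K t : ℕ) {k : ℤ} (hk : -(K + t : ℤ) ≤ k) :
    (ph f (-(K : ℤ)) : ℝ) * Real.exp (-(2 / 2 ^ K)) ≤ (ph (Psi^[t] f) k : ℝ) := by
  have h1 := left_iter f K t
  have h2 : ph (Psi^[t] f) (-((K + t : ℕ) : ℤ)) ≤ ph (Psi^[t] f) k :=
    ph_mono (steep_iter hf t) (by push_cast; exact hk)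
  have h2' : (ph (Psi^[t] f) (-((K + t : ℕ) : ℤ)) : ℝ) ≤ ph (Psi^[t] f) k := h2
  have h3 : Real.exp (-(2 / 2 ^ K)) ≤ Real.exp (-(2 / 2 ^ K - 2 / 2 ^ (K + t))) := by
    apply Real.exp_le_exp.2
    have : (0 : ℝ) ≤ 2 / 2 ^ (K + t) := by positivity
    linarith
  have h4 : 0 ≤ (ph f (-(K : ℤ)) : ℝ) := (ph f (-(K : ℤ))).2.1
  have h5 := mul_le_mul_of_nonneg_left h3 h4
  linarith

/-- the sequence of distribution functions -/
noncomputable def F : ℕ → St
  | 0 => fun k => if 0 ≤ k then 1 else 0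
  | n + 1 => Psi (F n)

lemma F_add (n t : ℕ) : F (n + t) = Psi^[t] (F n) := by
  induction t with
  | zero => rfl
  | succ t ih =>
    rw [Psi_iter_succ, ← ih]
    rfl

lemma hI_zero : hI 0 = 0 := by
  apply Subtype.ext
  rw [hI_coe]
  simp [h]

lemma hI_one : hI 1 = 1 := by
  apply Subtype.ext
  rw [hI_coe]
  simp [h]
  norm_num

lemma F0_steep : Steep (F 0) := by
  intro k
  show hI (if 0 ≤ k then 1 else 0) ≤ (if 0 ≤ k + 1 then 1 else 0)
  by_cases hk : 0 ≤ k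
  · rw [if_pos hk, if_pos (by omega), hI_one]
  · rw [if_neg hk, hI_zero]
    exact unitInterval.nonneg'

lemma F_steep (n : ℕ) : Steep (F n) := by
  induction n with
  | zero => exact F0_steep
  | succ n ih => exact steep_Psi ih

lemma F1_zero : (ph (F 1) 0 : ℝ) = 49 / 64 := by
  have : ph (F 1) 0 = F 1 0 := by simp [ph]
  rw [this]
  show g ((F 0 (0 - 1) : unitInterval) : ℝ) (F 0 0) (F 0 (0 + 1)) = 49 / 64
  have e1 : F 0 (0 - 1) = 0 := by
    show (if (0 : ℤ) ≤ 0 - 1 then (1 : unitInterval) else 0) = 0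
    norm_num
  have e2 : F 0 0 = 1 := by
    show (if (0 : ℤ) ≤ 0 then (1 : unitInterval) else 0) = 1
    norm_num
  have e3 : F 0 (0 + 1) = 1 := by
    show (if (0 : ℤ) ≤ 0 + 1 then (1 : unitInterval) else 0) = 1
    norm_num
  rw [e1, e2, e3]
  simp only [Set.Icc.coe_zero, Set.Icc.coe_one, g, E, Tt]
  norm_num

lemma F1_neg_one : (ph (F 1) (-1) : ℝ) = 39 / 64 := by
  have : ph (F 1) (-1) = hI (F 1 (-1)) := by simp [ph]
  rw [this, hI_coe]
  have e : ((F 1 (-1) : unitInterval) : ℝ) = (3 / 8) ^ 2 := by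
    show g ((F 0 (-1 - 1) : unitInterval) : ℝ) (F 0 (-1)) (F 0 (-1 + 1)) = (3 / 8) ^ 2
    have e1 : F 0 (-1 - 1) = 0 := by
      show (if (0 : ℤ) ≤ -1 - 1 then (1 : unitInterval) else 0) = 0
      norm_num
    have e2 : F 0 (-1) = 0 := by
      show (if (0 : ℤ) ≤ -1 then (1 : unitInterval) else 0) = 0
      norm_num
    have e3 : F 0 (-1 + 1) = 1 := by
      show (if (0 : ℤ) ≤ -1 + 1 then (1 : unitInterval) else 0) = 1
      norm_num
    rw [e1, e2, e3]
    simp only [Set.Icc.coe_zero, Set.Icc.coe_one, g, E, Tt]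
    norm_num
  rw [e, h_sq (by norm_num)]
  norm_num

/-- lower bound of the phases -/
noncomputable def la : ℝ := 39 / 64 * Real.exp (-1)

noncomputable def lb : ℝ := 1 - 15 / 64 * Real.exp (-2)

lemma la_pos : 0 < la := by unfold la; positivity

lemma lb_lt : lb < 1 := by
  unfold lb
  have := Real.exp_pos (-2)
  linarith

lemma ph_lower (t : ℕ) {k : ℤ} (hk : -(1 + t : ℤ) ≤ k) : la ≤ ph (F (1 + t)) k := by
  have h1 := left_stab (F_steep 1) 1 t (k := k) (by push_cast; exact hk)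
  rw [← F_add] at h1
  have e : (ph (F 1) (-((1 : ℕ) : ℤ)) : ℝ) = 39 / 64 := by
    have := F1_neg_one
    simpa using this
  rw [e] at h1
  refine le_trans (le_of_eq ?_) h1
  unfold la
  norm_num

lemma ph_upper (t : ℕ) {k : ℤ} (hk : k ≤ t) : (ph (F (1 + t)) k : ℝ) ≤ lb := by
  have h1 := right_stab (F_steep 1) 0 t (k := k) (by push_cast; linarith)
  rw [← F_add] at h1
  have e : (ph (F 1) ((0 : ℕ) : ℤ) : ℝ) = 49 / 64 := by
    have := F1_zero
    simpa using this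
  rw [e] at h1
  unfold lb
  norm_num at h1 ⊢
  linarith

/-! ### limit points -/

/-- set of the pointwise limit points -/
def Om : Set St := {f | ∃ U : Ultrafilter ℕ, (U : Filter ℕ) ≤ atTop ∧
  ∀ k, Tendsto (fun n => F n k) U (𝓝 (f k))}

lemma Om_steep {f : St} (hf : f ∈ Om) : Steep f := by
  obtain ⟨U, hU, hl⟩ := hf
  intro k
  exact le_of_tendsto_of_tendsto' ((hI.continuous.tendsto _).comp (hl k)) (hl (k + 1))
    fun n => F_steep n k

lemma g_cont : Continuous fun p : ℝ × ℝ × ℝ => g p.1 p.2.1 p.2.2 := by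
  unfold g Tt E
  fun_prop

lemma Om_Psi {f : St} (hf : f ∈ Om) : Psi f ∈ Om := by
  obtain ⟨U, hU, hl⟩ := hf
  refine ⟨U.map (fun n => n + 1), ?_, fun k => ?_⟩
  · rw [Ultrafilter.coe_map]
    exact (map_mono hU).trans (tendsto_add_atTop_nat 1)
  · rw [Ultrafilter.coe_map, tendsto_map'_iff]
    have hr : ∀ j : ℤ, Tendsto (fun n => ((F n j : unitInterval) : ℝ)) U (𝓝 ((f j : unitInterval) : ℝ)) :=
      fun j => (continuous_subtype_val.tendsto (f j)).comp (hl j)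
    have h1 : Tendsto (fun n => g ((F n (k - 1) : unitInterval) : ℝ) ((F n k : unitInterval) : ℝ)
        ((F n (k + 1) : unitInterval) : ℝ)) U
        (𝓝 (g ((f (k - 1) : unitInterval) : ℝ) (f k : unitInterval) (f (k + 1) : unitInterval))) :=
      Tendsto.comp (g := fun p : ℝ × ℝ × ℝ => g p.1 p.2.1 p.2.2)
        (f := fun n => (((F n (k - 1) : unitInterval) : ℝ), ((F n k : unitInterval) : ℝ),
          ((F n (k + 1) : unitInterval) : ℝ)))
        (y := 𝓝 (((f (k - 1) : unitInterval) : ℝ), ((f k : unitInterval) : ℝ),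
          ((f (k + 1) : unitInterval) : ℝ)))
        (g_cont.tendsto _) ((hr _).prodMk_nhds ((hr _).prodMk_nhds (hr _)))
    have h3 : Tendsto (fun n => ((F (n + 1) k : unitInterval) : ℝ)) U
        (𝓝 ((Psi f k : unitInterval) : ℝ)) := h1
    exact tendsto_subtype_rng.2 h3

lemma Om_iter {f : St} (hf : f ∈ Om) (t : ℕ) : Psi^[t] f ∈ Om := by
  induction t with
  | zero => exact hf
  | succ t ih => rw [Psi_iter_succ]; exact Om_Psi ih

lemma ph_tendsto {f : St} {U : Ultrafilter ℕ} (hl : ∀ k, Tendsto (fun n => F n k) U (𝓝 (f k)))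
    (k : ℤ) : Tendsto (fun n => (ph (F n) k : ℝ)) U (𝓝 (ph f k : ℝ)) :=
  (continuous_subtype_val.tendsto _).comp (((hI ^ (-k)).continuous.tendsto _).comp (hl k))

lemma Om_lower {f : St} (hf : f ∈ Om) (k : ℤ) : la ≤ ph f k := by
  obtain ⟨U, hU, hl⟩ := hf
  refine ge_of_tendsto (ph_tendsto hl k) (hU ?_)
  filter_upwards [eventually_ge_atTop (1 + k.natAbs)] with n hn
  obtain ⟨t, rfl⟩ := Nat.exists_eq_add_of_le (show 1 ≤ n by omega)
  exact ph_lower t (by omega)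

lemma Om_upper {f : St} (hf : f ∈ Om) (k : ℤ) : (ph f k : ℝ) ≤ lb := by
  obtain ⟨U, hU, hl⟩ := hf
  refine le_of_tendsto (ph_tendsto hl k) (hU ?_)
  filter_upwards [eventually_ge_atTop (1 + k.natAbs)] with n hn
  obtain ⟨t, rfl⟩ := Nat.exists_eq_add_of_le (show 1 ≤ n by omega)
  exact ph_upper t (by omega)

lemma Om_cross {f f' : St} (hf : f ∈ Om) (hf' : f' ∈ Om) (K : ℕ) (k : ℤ) :
    (1 - (ph f K : ℝ)) * Real.exp (-(2 / 2 ^ K)) ≤ 1 - (ph f' k : ℝ) := by
  obtain ⟨U, hU, hl⟩ := hf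
  obtain ⟨U', hU', hl'⟩ := hf'
  have h1 : ∀ n, (1 - (ph (F n) K : ℝ)) * Real.exp (-(2 / 2 ^ K)) ≤ 1 - (ph f' k : ℝ) := by
    intro n
    refine ge_of_tendsto ((ph_tendsto hl' k).const_sub 1) (hU' ?_)
    filter_upwards [eventually_ge_atTop (n + k.natAbs)] with m hm
    obtain ⟨t, rfl⟩ := Nat.exists_eq_add_of_le (show n ≤ m by omega)
    rw [F_add]
    exact right_stab (F_steep n) K t (by omega)
  exact le_of_tendsto' (((ph_tendsto hl K).const_sub 1).mul_const _) h1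

lemma Om_nonempty : Om.Nonempty := by
  obtain ⟨U, hU⟩ := Ultrafilter.exists_le (atTop : Filter ℕ)
  have : ∀ k : ℤ, ∃ l : unitInterval, Tendsto (fun n => F n k) U (𝓝 l) := by
    intro k
    obtain ⟨l, -, hl⟩ := isCompact_univ.ultrafilter_le_nhds (U.map fun n => F n k) (by simp)
    exact ⟨l, hl⟩
  choose f hf using this
  exact ⟨f, U, hU, hf⟩

/-- the supremum of the phases -/
noncomputable def bs : ℝ := sSup {x : ℝ | ∃ f ∈ Om, ∃ k : ℤ, x = ph f k}

lemma le_bs {f : St} (hf : f ∈ Om) (k : ℤ) : (ph f k : ℝ) ≤ bs :=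
  le_csSup ⟨lb, by rintro _ ⟨f, hf, k, rfl⟩; exact Om_upper hf k⟩ ⟨f, hf, k, rfl⟩

lemma bs_le : bs ≤ lb := by
  obtain ⟨f, hf⟩ := Om_nonempty
  exact csSup_le ⟨_, f, hf, 0, rfl⟩ (by rintro _ ⟨f, hf, k, rfl⟩; exact Om_upper hf k)

lemma la_le_bs : la ≤ bs := by
  obtain ⟨f, hf⟩ := Om_nonempty
  exact (Om_lower hf 0).trans (le_bs hf 0)

lemma bs_mem : bs ∈ Icc (0 : ℝ) 1 := ⟨la_pos.le.trans la_le_bs, bs_le.trans lb_lt.le⟩

/-- the supremum as a point of the unit interval -/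
noncomputable def bsI : unitInterval := ⟨bs, bs_mem⟩

lemma cross_bs {f : St} (hf : f ∈ Om) (K : ℕ) :
    (1 - (ph f K : ℝ)) * Real.exp (-(2 / 2 ^ K)) ≤ 1 - bs := by
  have h1 : bs ≤ 1 - (1 - (ph f K : ℝ)) * Real.exp (-(2 / 2 ^ K)) := by
    obtain ⟨f0, hf0⟩ := Om_nonempty
    refine csSup_le ⟨_, f0, hf0, 0, rfl⟩ ?_
    rintro _ ⟨f', hf', k, rfl⟩
    have := Om_cross hf hf' K k
    linarith
  linarith

end Pool.Agent.R975.A87
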