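import Mathlib
import Pool.Agent.R975.A87.Dyn

/-! Noisy min-max recursion on the binary tree: the gap to the supremum is expanding. -/

set_option autoImplicit false

namespace Pool.Agent.R975.A87

open Set Filter Topology

noncomputable def A (u v w : ℝ) : ℝ := ((u + v) ^ 2 + (v + w) ^ 2) / 8

lemma one_sub_g (u v w : ℝ) : 1 - g (1 - u) (1 - v) (1 - w) = A u v w * (2 - A u v w) := by
  unfold g Tt E A
  ring

lemma A_log {e u v w U : ℝ} (he : 0 < e) (hu : e ≤ u) (hU : u ≤ U) (hU' : U ≤ 1 / 32)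
    (hw : 0 ≤ w) (hwv : w ≤ v) (hv : v ≤ e ^ 2) :
    2 * (1 - 2 * U) * Real.log (u / e) ≤ Real.log (A u v w / A e v w) := by
  have hv0 : 0 ≤ v := hw.trans hwv
  have hu0 : 0 < u := he.trans_le hu
  set D : ℝ := (e + v) ^ 2 + (v + w) ^ 2 with hD
  have hD0 : 0 < D := by positivity
  set R : ℝ := u / e with hR
  have hR1 : 1 ≤ R := by rw [hR, le_div_iff₀ he]; linarith
  have hlog : 0 ≤ Real.log R := Real.log_nonneg hR1
  have hRe : R * e = u := by rw [hR]; field_simp
  have h1 : 2 * (1 - 2 * U) ≤ (2 * e ^ 2 + 2 * e * v) / D := by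
    rw [le_div_iff₀ hD0]
    have h2 : D ≤ e ^ 2 + 2 * e * v + 5 * v ^ 2 := by
      rw [hD]; nlinarith
    have h3 : 0 ≤ 1 - 2 * U := by linarith
    have h4 : (1 - 2 * U) * D ≤ (1 - 2 * e) * (e ^ 2 + 2 * e * v + 5 * v ^ 2) := by
      calc (1 - 2 * U) * D ≤ (1 - 2 * U) * (e ^ 2 + 2 * e * v + 5 * v ^ 2) :=
            mul_le_mul_of_nonneg_left h2 h3
        _ ≤ _ := mul_le_mul_of_nonneg_right (by linarith) (by positivity)
    have h5 : (1 - 2 * e) * (e ^ 2 + 2 * e * v + 5 * v ^ 2) ≤ e ^ 2 + e * v := by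
      have he32 : e ≤ 1 / 32 := by linarith
      have h6 : v * v ≤ e ^ 2 * v := mul_le_mul_of_nonneg_right hv hv0
      have h7 : e * v ≤ e * e ^ 2 := mul_le_mul_of_nonneg_left hv he.le
      have h8 : e ^ 2 * v ≤ e ^ 2 * e ^ 2 := mul_le_mul_of_nonneg_left hv (by positivity)
      have h9 : e ^ 2 * e ^ 2 ≤ e ^ 3 * (1 / 32) := by
        have : e ^ 3 * e ≤ e ^ 3 * (1 / 32) := mul_le_mul_of_nonneg_left he32 (by positivity)
        nlinarith
      have h10 : 0 ≤ e ^ 3 := by positivity
      have h11 : 0 ≤ e ^ 2 * v := by positivity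
      have h12 : 0 ≤ e * v ^ 2 := by positivity
      nlinarith
    nlinarith
  refine (mul_le_mul_of_nonneg_right h1 hlog).trans ?_
  have hamgm := Real.geom_mean_le_arith_mean3_weighted
    (show 0 ≤ e ^ 2 / D by positivity) (show 0 ≤ 2 * e * v / D by positivity)
    (show 0 ≤ (v ^ 2 + (v + w) ^ 2) / D by positivity)
    (show 0 ≤ R ^ 2 by positivity) (show 0 ≤ R by linarith) (show (0 : ℝ) ≤ 1 by norm_num)
    (by rw [← add_div, ← add_div, div_eq_one_iff_eq hD0.ne']; rw [hD]; ring)
  have hR0 : 0 < R := by linarith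
  have h2 : e ^ 2 / D * R ^ 2 + 2 * e * v / D * R + (v ^ 2 + (v + w) ^ 2) / D * 1
      = A u v w / A e v w := by
    unfold A
    rw [← hRe]
    have : (e + v) ^ 2 + (v + w) ^ 2 = D := hD.symm
    rw [this]
    field_simp
    ring
  rw [h2] at hamgm
  have h3 : 0 < (R ^ 2) ^ (e ^ 2 / D) * R ^ (2 * e * v / D) *
      (1 : ℝ) ^ ((v ^ 2 + (v + w) ^ 2) / D) := by positivity
  have h4 := Real.log_le_log h3 hamgm
  refine le_trans (le_of_eq ?_) h4
  rw [Real.one_rpow, mul_one, Real.log_mul (by positivity) (by positivity),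
    Real.log_rpow (by positivity), Real.log_rpow hR0, Real.log_pow]
  push_cast
  ring

lemma gap_real {e u v w U : ℝ} (he : 0 < e) (hu : e ≤ u) (hU : u ≤ U) (hU' : U ≤ 1 / 32)
    (hw : 0 ≤ w) (hwv : w ≤ v) (hv : v ≤ e ^ 2) :
    2 * (1 - 3 * U) * Real.log (u / e) ≤
      Real.log ((1 - g (1 - u) (1 - v) (1 - w)) / (1 - g (1 - e) (1 - v) (1 - w))) := by
  have hv0 : 0 ≤ v := hw.trans hwv
  have hu0 : 0 < u := he.trans_le hu
  have h1 := A_log he hu hU hU' hw hwv hv
  have hR1 : 1 ≤ u / e := by rw [le_div_iff₀ he]; linarith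
  have hlog : 0 ≤ Real.log (u / e) := Real.log_nonneg hR1
  have hAu0 : 0 < A u v w := by unfold A; positivity
  have hAe0 : 0 < A e v w := by unfold A; positivity
  have heu : e ^ 2 ≤ u ^ 2 := by nlinarith
  have hvu : v ≤ u ^ 2 := hv.trans heu
  have hu1 : u ≤ 1 / 32 := hU.trans hU'
  have hAu : A u v w ≤ u ^ 2 / 4 := by
    have hvu' : v ≤ u / 32 := by nlinarith
    unfold A
    have h2 : (u + v) ^ 2 ≤ (33 / 32 * u) ^ 2 := pow_le_pow_left₀ (by positivity) (by linarith) 2
    have h3 : (v + w) ^ 2 ≤ (u / 16) ^ 2 := pow_le_pow_left₀ (by positivity) (by linarith) 2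
    nlinarith
  have hAu1 : A u v w ≤ 1 := by nlinarith
  have hAe_u : A u v w ≤ (u / e) ^ 2 * A e v w := by
    unfold A
    have h2 : u + v ≤ u / e * (e + v) := by
      rw [mul_add]
      have : u / e * e = u := by field_simp
      rw [this]
      nlinarith
    have h3 : (u + v) ^ 2 ≤ (u / e * (e + v)) ^ 2 := pow_le_pow_left₀ (by positivity) h2 2
    have h4 : (v + w) ^ 2 ≤ (u / e) ^ 2 * (v + w) ^ 2 := by
      have : 1 ≤ (u / e) ^ 2 := one_le_pow₀ hR1
      nlinarith [sq_nonneg (v + w)]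
    rw [mul_pow] at h3
    linarith
  have hAmono : A e v w ≤ A u v w := by
    unfold A
    have : (e + v) ^ 2 ≤ (u + v) ^ 2 := pow_le_pow_left₀ (by positivity) (by linarith) 2
    linarith
  rw [one_sub_g, one_sub_g, mul_div_mul_comm, Real.log_mul (by positivity)
    (div_pos (by linarith) (by linarith)).ne']
  have h5 : -(U * Real.log (u / e)) ≤ Real.log ((2 - A u v w) / (2 - A e v w)) := by
    have h6 := Real.one_sub_inv_le_log_of_pos
      (show 0 < (2 - A u v w) / (2 - A e v w) from div_pos (by linarith) (by linarith))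
    refine le_trans ?_ h6
    rw [inv_div]
    have h7 : 1 - (2 - A e v w) / (2 - A u v w) = -((A u v w - A e v w) / (2 - A u v w)) := by
      have : 2 - A u v w ≠ 0 := by linarith
      field_simp
      ring
    rw [h7]
    apply neg_le_neg
    have h8 : A u v w - A e v w ≤ A u v w * (2 * Real.log (u / e)) := by
      have h9 := Real.one_sub_inv_le_log_of_pos (show 0 < (u / e) ^ 2 by positivity)
      rw [Real.log_pow] at h9
      push_cast at h9
      have h10 : A u v w * (1 - ((u / e) ^ 2)⁻¹) ≤ A u v w * (2 * Real.log (u / e)) :=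
        mul_le_mul_of_nonneg_left h9 hAu0.le
      have h11 : A u v w * ((u / e) ^ 2)⁻¹ ≤ A e v w := by
        rw [← div_eq_mul_inv, div_le_iff₀ (by positivity)]
        linarith
      nlinarith
    rw [div_le_iff₀ (by linarith)]
    have h12 : A u v w * (2 * Real.log (u / e)) ≤ U * Real.log (u / e) * 1 := by
      have h13 : A u v w * 2 ≤ U := by nlinarith
      calc A u v w * (2 * Real.log (u / e)) = (A u v w * 2) * Real.log (u / e) := by ring
        _ ≤ U * Real.log (u / e) := mul_le_mul_of_nonneg_right h13 hlog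
        _ = _ := by ring
    have hU0 : 0 ≤ U := hu0.le.trans hU
    have h14 : U * Real.log (u / e) * 1 ≤ U * Real.log (u / e) * (2 - A u v w) :=
      mul_le_mul_of_nonneg_left (by linarith) (by positivity)
    linarith
  have hU0 : 0 ≤ U := hu0.le.trans hU
  have h15 : 0 ≤ U * Real.log (u / e) := mul_nonneg hU0 hlog
  nlinarith

lemma distort {p q : ℝ} (hp : 0 < p) (hpq : p ≤ q) (hq : q < 1) :
    Real.log ((1 - h p) / (1 - h q)) ≤
      2 * (1 + (1 - √p) / (2 * √p)) * Real.log ((1 - p) / (1 - q)) := by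
  set s := √p with hs
  set t := √q with ht
  have hs0 : 0 < s := Real.sqrt_pos.2 hp
  have hst : s ≤ t := Real.sqrt_le_sqrt hpq
  have ht1 : t < 1 := by
    rw [ht, Real.sqrt_lt' one_pos]
    simpa using hq
  have hps : p = s ^ 2 := (Real.sq_sqrt hp.le).symm
  have hqt : q = t ^ 2 := (Real.sq_sqrt (hp.le.trans hpq)).symm
  rw [one_sub_h hp.le, one_sub_h (hp.le.trans hpq), ← hs, ← ht]
  have h1s : 0 < 1 - s := by linarith
  have h1t : 0 < 1 - t := by linarith
  set X := Real.log ((1 - s) / (1 - t)) with hX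
  set Y := Real.log ((1 + t) / (1 + s)) with hY
  have e1 : Real.log ((1 - s) ^ 2 / (1 - t) ^ 2) = 2 * X := by
    rw [← div_pow, Real.log_pow, hX]
    norm_num
  have e2 : Real.log ((1 - p) / (1 - q)) = X - Y := by
    rw [hX, hY, ← Real.log_div (by positivity) (by positivity)]
    congr 1
    rw [hps, hqt]
    have : 1 - t ^ 2 = (1 - t) * (1 + t) := by ring
    rw [this]
    have : 1 - s ^ 2 = (1 - s) * (1 + s) := by ring
    rw [this]
    field_simp
  have hY1 : Y ≤ (t - s) / (1 + s) := by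
    have := Real.log_le_sub_one_of_pos (show 0 < (1 + t) / (1 + s) by positivity)
    refine this.trans (le_of_eq ?_)
    field_simp
    ring
  have hZ1 : (t - s) * (2 * s) / ((1 - s) * (1 + s)) ≤ X - Y := by
    rw [← e2]
    have := Real.one_sub_inv_le_log_of_pos
      (show 0 < (1 - p) / (1 - q) from div_pos (by linarith) (by linarith))
    refine le_trans ?_ this
    rw [inv_div, hps, hqt]
    have h2 : 1 - (1 - t ^ 2) / (1 - s ^ 2) = (t - s) * (t + s) / ((1 - s) * (1 + s)) := by
      have h3 : 1 - s ^ 2 = (1 - s) * (1 + s) := by ring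
      rw [h3]
      field_simp
      ring
    rw [h2]
    apply div_le_div_of_nonneg_right _ (by positivity)
    apply mul_le_mul_of_nonneg_left (by linarith) (by linarith)
  have hYZ : Y ≤ (1 - s) / (2 * s) * (X - Y) := by
    have h4 : (1 - s) / (2 * s) * ((t - s) * (2 * s) / ((1 - s) * (1 + s))) = (t - s) / (1 + s) := by
      field_simp
    have h5 : (1 - s) / (2 * s) * ((t - s) * (2 * s) / ((1 - s) * (1 + s))) ≤
        (1 - s) / (2 * s) * (X - Y) := mul_le_mul_of_nonneg_left hZ1 (by positivity)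
    linarith
  rw [e1, e2]
  nlinarith

end Pool.Agent.R975.A87
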