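import Mathlib
import Pool.Agent.R975.A87.Gap

/-! Noisy min-max recursion on the binary tree: pointwise convergence. -/

set_option autoImplicit false

namespace Pool.Agent.R975.A87

open Set Filter Topology

lemma hz_succ (k : ℤ) (x : unitInterval) : (hI ^ (k + 1)) x = hI ((hI ^ k) x) := by
  rw [add_comm, zpow_add, zpow_one]
  rfl

lemma hz_ph (f : St) (k : ℤ) : (hI ^ k) (ph f k) = f k := by
  unfold ph
  have : (hI ^ k) ((hI ^ (-k)) (f k)) = (hI ^ k * hI ^ (-k)) (f k) := rfl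
  rw [this, ← zpow_add, add_neg_cancel, zpow_zero]
  rfl

noncomputable def laI : unitInterval := ⟨la, la_pos.le, la_le_bs.trans bs_mem.2⟩

/-- `1 - h^k (la)` -/
noncomputable def Uu (k : ℕ) : ℝ := 1 - ((hI ^ (k : ℤ)) laI : unitInterval)

lemma one_sub_h_le {p : ℝ} (hp : p ∈ Icc (0 : ℝ) 1) : 1 - h p ≤ (1 - p) ^ 2 := by
  rw [one_sub_h hp.1]
  have h4 : √p ≤ 1 := Real.sqrt_le_one.mpr hp.2
  have h5 := Real.sq_sqrt hp.1
  have h6 := Real.sqrt_nonneg p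
  have h7 : p ≤ √p := by nlinarith
  nlinarith

lemma Uu_nonneg (k : ℕ) : 0 ≤ Uu k := by
  unfold Uu
  linarith [((hI ^ (k : ℤ)) laI).2.2]

lemma Uu_succ (k : ℕ) : Uu (k + 1) ≤ Uu k ^ 2 := by
  unfold Uu
  push_cast
  rw [hz_succ, hI_coe]
  exact one_sub_h_le ((hI ^ (k : ℤ)) laI).2

lemma Uu_pow (k j : ℕ) : Uu (k + j) ≤ Uu k ^ (j + 1) := by
  induction j with
  | zero => simp
  | succ j ih =>
    have h0 := Uu_nonneg k
    have h1 : Uu k ≤ 1 := by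
      unfold Uu
      linarith [((hI ^ (k : ℤ)) laI).2.1]
    calc Uu (k + (j + 1)) ≤ Uu (k + j) ^ 2 := Uu_succ (k + j)
      _ ≤ (Uu k ^ (j + 1)) ^ 2 := pow_le_pow_left₀ (Uu_nonneg _) ih 2
      _ = Uu k ^ (2 * j + 2) := by rw [← pow_mul]; ring_nf
      _ ≤ Uu k ^ (j + 1 + 1) := pow_le_pow_of_le_one h0 h1 (by omega)

lemma exists_small : ∃ K, Uu K ≤ 1 / 32 := by
  have h0 := Uu_nonneg 0
  have h1 : Uu 0 < 1 := by
    have : Uu 0 = 1 - la := by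
      unfold Uu
      simp [laI]
    rw [this]
    linarith [la_pos]
  obtain ⟨n, hn⟩ := exists_pow_lt_of_lt_one (show (0 : ℝ) < 1 / 32 by norm_num) h1
  refine ⟨n, ?_⟩
  have h2 := Uu_pow 0 n
  rw [zero_add] at h2
  have h3 : Uu 0 ^ (n + 1) ≤ Uu 0 ^ n := pow_le_pow_of_le_one h0 h1.le (by omega)
  linarith

/-- the fixed point at `k` -/
noncomputable def Fs (k : ℤ) : unitInterval := (hI ^ k) bsI

lemma Fs_succ (k : ℤ) : (Fs (k + 1) : ℝ) = h (Fs k) := by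
  unfold Fs
  rw [hz_succ, hI_coe]

lemma h_lt_one {p : ℝ} (hp : 0 ≤ p) (hp1 : p < 1) : h p < 1 := by
  have h1 := one_sub_h hp
  have h2 : √p < 1 := by
    rw [Real.sqrt_lt' one_pos]; simpa using hp1
  nlinarith

lemma hv_lt_one {p : ℝ} (hp1 : p ∈ Icc (0 : ℝ) 1) (h : p < 1) : hv p < 1 := by
  unfold hv
  have h3 : 0 < √(1 - p) := Real.sqrt_pos.2 (by linarith)
  have h4 : √(1 - p) ≤ 1 := Real.sqrt_le_one.mpr (by linarith [hp1.1])
  nlinarith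

lemma hz_lt_one {x : unitInterval} (hx : (x : ℝ) < 1) (k : ℤ) : (((hI ^ k) x : unitInterval) : ℝ) < 1 := by
  have h1 : (hI ^ k) 1 = 1 := by
    have hnat : ∀ n : ℕ, (hI ^ (n : ℤ)) 1 = 1 := by
      intro n
      induction n with
      | zero => rfl
      | succ n ih => push_cast; rw [hz_succ, ih, hI_one]
    obtain ⟨n, rfl | rfl⟩ := k.eq_nat_or_neg
    · exact hnat n
    · have h2 : (hI ^ (-(n : ℤ))) ((hI ^ (n : ℤ)) 1) = (hI ^ (-(n : ℤ)) * hI ^ (n : ℤ)) 1 := rfl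
      rw [hnat n, ← zpow_add, neg_add_cancel, zpow_zero] at h2
      exact h2
  have h2 : x < 1 := hx
  have h3 : (hI ^ k) x < (hI ^ k) 1 := (hI ^ k).strictMono h2
  rw [h1] at h3
  exact h3

lemma bs_lt : bs < 1 := bs_le.trans_lt lb_lt

lemma Fs_lt (k : ℤ) : (Fs k : ℝ) < 1 := hz_lt_one (x := bsI) bs_lt k

lemma le_Fs {f : St} (hf : f ∈ Om) (k : ℤ) : f k ≤ Fs k := by
  rw [← hz_ph f k]
  exact (hI ^ k).monotone (le_bs hf k : (ph f k : ℝ) ≤ bsI)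

lemma la_le_f {f : St} (hf : f ∈ Om) (k : ℤ) : (hI ^ k) laI ≤ f k := by
  rw [← hz_ph f k]
  exact (hI ^ k).monotone (Om_lower hf k : (laI : ℝ) ≤ ph f k)

/-- the gap -/
noncomputable def gp (f : St) (k : ℤ) : ℝ := Real.log ((1 - (f k : ℝ)) / (1 - (Fs k : ℝ)))

lemma gp_nonneg {f : St} (hf : f ∈ Om) (k : ℤ) : 0 ≤ gp f k := by
  apply Real.log_nonneg
  have h1 : (f k : ℝ) ≤ Fs k := le_Fs hf k
  have h2 := Fs_lt k
  rw [le_div_iff₀ (by linarith)]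
  linarith

lemma gp_step {f : St} (hf : f ∈ Om) {k : ℕ} (hk : Uu k ≤ 1 / 32) :
    2 * (1 - 3 * Uu k) * gp f k ≤ gp (Psi f) (k + 1 : ℕ) := by
  have h1 : (f k : ℝ) ≤ Fs k := le_Fs hf k
  have h2 : (f (k + 1 : ℤ) : ℝ) ≤ Fs (k + 1 : ℤ) := le_Fs hf _
  have h3 : (f (k + 1 + 1 : ℤ) : ℝ) ≤ Fs (k + 1 + 1 : ℤ) := le_Fs hf _
  have hl : (((hI ^ (k : ℤ)) laI : unitInterval) : ℝ) ≤ f k := la_le_f hf k
  have hs := Fs_succ k
  have hs2 := Fs_succ (k + 1)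
  have hv1 : 1 - (Fs (k + 1 : ℤ) : ℝ) ≤ (1 - (Fs k : ℝ)) ^ 2 := by
    rw [hs]; exact one_sub_h_le (Fs k).2
  have hv2 : 1 - (Fs (k + 1 + 1 : ℤ) : ℝ) ≤ 1 - (Fs (k + 1 : ℤ) : ℝ) := by
    rw [hs2]
    have h4 := one_sub_h_le (Fs (k + 1 : ℤ)).2
    have h5 := (Fs (k + 1 : ℤ)).2.1
    have h6 := (Fs (k + 1 : ℤ)).2.2
    nlinarith
  have he := Fs_lt k
  have hUu : Uu k = 1 - (((hI ^ (k : ℤ)) laI : unitInterval) : ℝ) := rfl
  have key := gap_real (e := 1 - (Fs k : ℝ)) (u := 1 - (f k : ℝ)) (v := 1 - (Fs (k + 1 : ℤ) : ℝ))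
    (w := 1 - (Fs (k + 1 + 1 : ℤ) : ℝ)) (U := Uu k) (by linarith) (by linarith)
    (by rw [hUu]; linarith) hk (by linarith [(Fs (k + 1 + 1 : ℤ)).2.2]) hv2 hv1
  unfold gp
  refine key.trans ?_
  have e1 : g (1 - (1 - (Fs k : ℝ))) (1 - (1 - (Fs (k + 1 : ℤ) : ℝ)))
      (1 - (1 - (Fs (k + 1 + 1 : ℤ) : ℝ))) = Fs (k + 1 : ℤ) := by
    simp only [sub_sub_cancel]
    rw [hs2, hs]
    exact g_family (Fs k).2
  rw [e1]
  have e2 : ((Psi f ((k + 1 : ℕ) : ℤ) : unitInterval) : ℝ) =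
      g (f k) (f (k + 1 : ℤ)) (f (k + 1 + 1 : ℤ)) := by
    show g (f (((k + 1 : ℕ) : ℤ) - 1)) (f ((k + 1 : ℕ) : ℤ)) (f (((k + 1 : ℕ) : ℤ) + 1)) = _
    push_cast
    rw [show (k : ℤ) + 1 - 1 = k by ring]
  have h7 : g (f k) (f (k + 1 : ℤ)) (f (k + 1 + 1 : ℤ)) ≤ g (1 - (1 - (f k : ℝ)))
      (1 - (1 - (Fs (k + 1 : ℤ) : ℝ))) (1 - (1 - (Fs (k + 1 + 1 : ℤ) : ℝ))) := by
    simp only [sub_sub_cancel]
    exact g_mono (f k).2.1 (f (k + 1 : ℤ)).2.1 (f (k + 1 + 1 : ℤ)).2.1 (f k).2.2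
      (Fs (k + 1 : ℤ)).2.2 (Fs (k + 1 + 1 : ℤ)).2.2 le_rfl h2 h3
  have hden : 0 < 1 - (Fs (k + 1 : ℤ) : ℝ) := by linarith [Fs_lt (k + 1)]
  have hnum : 0 < 1 - g (1 - (1 - (f k : ℝ))) (1 - (1 - (Fs (k + 1 : ℤ) : ℝ)))
      (1 - (1 - (Fs (k + 1 + 1 : ℤ) : ℝ))) := by
    have h8 : g (1 - (1 - (f k : ℝ))) (1 - (1 - (Fs (k + 1 : ℤ) : ℝ)))
      (1 - (1 - (Fs (k + 1 + 1 : ℤ) : ℝ))) ≤ Fs (k + 1 : ℤ) := by
      refine le_trans ?_ e1.le
      simp only [sub_sub_cancel]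
      exact g_mono (f k).2.1 (Fs (k + 1 : ℤ)).2.1 (Fs (k + 1 + 1 : ℤ)).2.1 (Fs k).2.2
        (Fs (k + 1 : ℤ)).2.2 (Fs (k + 1 + 1 : ℤ)).2.2 h1 le_rfl le_rfl
    linarith
  push_cast at e2 ⊢
  rw [e2]
  apply Real.log_le_log (div_pos hnum hden)
  apply div_le_div_of_nonneg_right _ hden.le
  linarith

lemma gp_lower {K : ℕ} (hK : Uu K ≤ 1 / 32) {f : St} (hf : f ∈ Om) (m : ℕ) :
    2 ^ m * (1 / 2 + 1 / 2 ^ (m + 1)) * gp f K ≤ gp (Psi^[m] f) (K + m : ℕ) := by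
  induction m with
  | zero => norm_num
  | succ m ih =>
    have hU0 := Uu_nonneg (K + m)
    have hUm : Uu (K + m) ≤ (1 / 32) ^ (m + 1) :=
      (Uu_pow K m).trans (pow_le_pow_left₀ (Uu_nonneg K) hK _)
    have hU32 : Uu (K + m) ≤ 1 / 32 := by
      refine hUm.trans ?_
      calc (1 / 32 : ℝ) ^ (m + 1) ≤ (1 / 32) ^ 1 :=
            pow_le_pow_of_le_one (by norm_num) (by norm_num) (by omega)
        _ = 1 / 32 := pow_one _
    have h1 := gp_step (Om_iter hf m) hU32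
    rw [← Psi_iter_succ] at h1
    rw [show K + (m + 1) = K + m + 1 by ring]
    refine le_trans ?_ h1
    have h2 := mul_le_mul_of_nonneg_left ih (show 0 ≤ 2 * (1 - 3 * Uu (K + m)) by linarith)
    refine le_trans ?_ h2
    have hg := gp_nonneg hf K
    have h3 : 2 ^ (m + 1) * (1 / 2 + 1 / 2 ^ (m + 1 + 1)) ≤
        2 * (1 - 3 * Uu (K + m)) * (2 ^ m * (1 / 2 + 1 / 2 ^ (m + 1)) : ℝ) := by
      have h4 : (0 : ℝ) < 2 ^ m := by positivity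
      have h5 : 3 * Uu (K + m) ≤ 1 / 2 ^ (m + 2) := by
        have h6 : 3 * (1 / 32 : ℝ) ^ (m + 1) ≤ 1 / 2 ^ (m + 2) := by
          have h7 : (1 / 32 : ℝ) ^ (m + 1) ≤ 1 / 8 * (1 / 2) ^ (m + 1) := by
            rw [show (1 / 32 : ℝ) ^ (m + 1) = (1 / 16) ^ (m + 1) * (1 / 2) ^ (m + 1) by
              rw [← mul_pow]; norm_num]
            apply mul_le_mul_of_nonneg_right _ (by positivity)
            calc (1 / 16 : ℝ) ^ (m + 1) ≤ (1 / 16) ^ 1 :=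
                  pow_le_pow_of_le_one (by norm_num) (by norm_num) (by omega)
              _ ≤ 1 / 8 := by norm_num
          have h8 : (1 : ℝ) / 2 ^ (m + 2) = 1 / 2 * (1 / 2) ^ (m + 1) := by
            rw [one_div_pow, pow_succ]
            field_simp
          rw [h8]
          have h9 : (0 : ℝ) < (1 / 2) ^ (m + 1) := by positivity
          linarith
        linarith [mul_le_mul_of_nonneg_left hUm (show (0 : ℝ) ≤ 3 by norm_num)]
      have h10 : (1 / 2 + 1 / 2 ^ (m + 1) : ℝ) ≤ 1 := by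
        have : (1 : ℝ) / 2 ^ (m + 1) ≤ 1 / 2 := by
          rw [pow_succ]
          have : (1 : ℝ) ≤ 2 ^ m := one_le_pow₀ (by norm_num)
          rw [div_le_div_iff₀ (by positivity) (by norm_num)]
          linarith
        linarith
      have h11 : (1 : ℝ) / 2 ^ (m + 1) = 2 * (1 / 2 ^ (m + 2)) := by
        rw [pow_succ (2 : ℝ) (m + 1)]
        field_simp
      have h12 : (1 : ℝ) / 2 ^ (m + 1 + 1) = 1 / 2 ^ (m + 2) := rfl
      rw [h12]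
      have h13 : 0 ≤ 3 * Uu (K + m) := by positivity
      have h14 : 3 * Uu (K + m) * (1 / 2 + 1 / 2 ^ (m + 1)) ≤ 1 / 2 ^ (m + 2) := by
        calc 3 * Uu (K + m) * (1 / 2 + 1 / 2 ^ (m + 1)) ≤ 3 * Uu (K + m) * 1 :=
              mul_le_mul_of_nonneg_left h10 h13
          _ ≤ _ := by linarith
      have h15 : (1 / 2 + 1 / 2 ^ (m + 2) : ℝ) ≤
          (1 - 3 * Uu (K + m)) * (1 / 2 + 1 / 2 ^ (m + 1)) := by
        rw [h11] at h14 ⊢
        nlinarith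
      calc (2 : ℝ) ^ (m + 1) * (1 / 2 + 1 / 2 ^ (m + 2))
          = 2 ^ (m + 1) * (1 / 2 + 1 / 2 ^ (m + 2)) := rfl
        _ ≤ 2 ^ (m + 1) * ((1 - 3 * Uu (K + m)) * (1 / 2 + 1 / 2 ^ (m + 1))) :=
            mul_le_mul_of_nonneg_left h15 (by positivity)
        _ = _ := by rw [pow_succ]; ring
    calc 2 ^ (m + 1) * (1 / 2 + 1 / 2 ^ (m + 1 + 1)) * gp f K
        ≤ 2 * (1 - 3 * Uu (K + m)) * (2 ^ m * (1 / 2 + 1 / 2 ^ (m + 1))) * gp f K :=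
          mul_le_mul_of_nonneg_right h3 hg
      _ = _ := by ring

/-- expansion from level `0` to level `j` -/
lemma expand {K : ℕ} (hK : Uu K ≤ 1 / 32) {p : unitInterval} (hp : laI ≤ p) (hp2 : p ≤ bsI)
    (m : ℕ) :
    Real.log ((1 - ((hI ^ ((K + m : ℕ) : ℤ)) p : ℝ)) / (1 - ((hI ^ ((K + m : ℕ) : ℤ)) bsI : ℝ))) ≤
      3 ^ m * ((2 + 1 / √la) ^ K * Real.log ((1 - (p : ℝ)) / (1 - (bsI : ℝ)))) := by
  have hla : 0 < √la := Real.sqrt_pos.2 la_pos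
  have hgen : ∀ j : ℕ, la ≤ ((hI ^ (j : ℤ)) p : unitInterval) := by
    intro j
    induction j with
    | zero => exact hp
    | succ j ih =>
      push_cast
      rw [hz_succ, hI_coe]
      refine ih.trans ?_
      have h1 := one_sub_h_le ((hI ^ (j : ℤ)) p).2
      have h2 := ((hI ^ (j : ℤ)) p).2.1
      have h3 := ((hI ^ (j : ℤ)) p).2.2
      nlinarith
  have hpq : ∀ j : ℕ, (((hI ^ (j : ℤ)) p : unitInterval) : ℝ) ≤ ((hI ^ (j : ℤ)) bsI : unitInterval) :=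
    fun j => (hI ^ (j : ℤ)).monotone hp2
  have hlog : ∀ j : ℕ, 0 ≤ Real.log ((1 - ((hI ^ (j : ℤ)) p : ℝ)) /
      (1 - ((hI ^ (j : ℤ)) bsI : ℝ))) := by
    intro j
    apply Real.log_nonneg
    have h2 : (((hI ^ (j : ℤ)) bsI : unitInterval) : ℝ) < 1 := hz_lt_one (x := bsI) bs_lt j
    rw [le_div_iff₀ (by linarith)]
    linarith [hpq j]
  have hstep : ∀ j : ℕ, Real.log ((1 - ((hI ^ ((j + 1 : ℕ) : ℤ)) p : ℝ)) /
      (1 - ((hI ^ ((j + 1 : ℕ) : ℤ)) bsI : ℝ))) ≤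
      2 * (1 + (1 - √((hI ^ (j : ℤ)) p : ℝ)) / (2 * √((hI ^ (j : ℤ)) p : ℝ))) *
        Real.log ((1 - ((hI ^ (j : ℤ)) p : ℝ)) / (1 - ((hI ^ (j : ℤ)) bsI : ℝ))) := by
    intro j
    push_cast
    rw [hz_succ, hz_succ, hI_coe, hI_coe]
    exact distort (la_pos.trans_le (hgen j)) (hpq j) (hz_lt_one (x := bsI) bs_lt j)
  have h0 : ∀ j : ℕ, Real.log ((1 - ((hI ^ (j : ℤ)) p : ℝ)) / (1 - ((hI ^ (j : ℤ)) bsI : ℝ))) ≤
      (2 + 1 / √la) ^ j * Real.log ((1 - (p : ℝ)) / (1 - (bsI : ℝ))) := by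
    intro j
    induction j with
    | zero => simp
    | succ j ih =>
      refine (hstep j).trans ?_
      have h1 : 2 * (1 + (1 - √((hI ^ (j : ℤ)) p : ℝ)) / (2 * √((hI ^ (j : ℤ)) p : ℝ))) ≤
          2 + 1 / √la := by
        have h2 : √la ≤ √((hI ^ (j : ℤ)) p : ℝ) := Real.sqrt_le_sqrt (hgen j)
        have h3 : 0 < √((hI ^ (j : ℤ)) p : ℝ) := hla.trans_le h2
        have h4 : 2 * (1 + (1 - √((hI ^ (j : ℤ)) p : ℝ)) / (2 * √((hI ^ (j : ℤ)) p : ℝ))) =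
            1 + 1 / √((hI ^ (j : ℤ)) p : ℝ) := by
          field_simp
          ring
        rw [h4]
        have h5 : 1 / √((hI ^ (j : ℤ)) p : ℝ) ≤ 1 / √la := one_div_le_one_div_of_le hla h2
        linarith
      calc _ ≤ (2 + 1 / √la) *
            Real.log ((1 - ((hI ^ (j : ℤ)) p : ℝ)) / (1 - ((hI ^ (j : ℤ)) bsI : ℝ))) :=
            mul_le_mul_of_nonneg_right h1 (hlog j)
        _ ≤ (2 + 1 / √la) * ((2 + 1 / √la) ^ j * Real.log ((1 - (p : ℝ)) / (1 - (bsI : ℝ)))) :=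
            mul_le_mul_of_nonneg_left ih (by positivity)
        _ = _ := by ring
  induction m with
  | zero => simpa using h0 K
  | succ m ih =>
    have h1 := hstep (K + m)
    rw [show K + (m + 1) = K + m + 1 by ring]
    refine h1.trans ?_
    have h2 : (1 / 4 : ℝ) ≤ ((hI ^ ((K + m : ℕ) : ℤ)) p : unitInterval) := by
      have h3 : (((hI ^ ((K + m : ℕ) : ℤ)) laI : unitInterval) : ℝ) ≤
        ((hI ^ ((K + m : ℕ) : ℤ)) p : unitInterval) := (hI ^ ((K + m : ℕ) : ℤ)).monotone hp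
      have h4 : Uu (K + m) ≤ 1 / 32 := by
        refine (Uu_pow K m).trans ?_
        calc Uu K ^ (m + 1) ≤ (1 / 32) ^ (m + 1) := pow_le_pow_left₀ (Uu_nonneg K) hK _
          _ ≤ (1 / 32) ^ 1 := pow_le_pow_of_le_one (by norm_num) (by norm_num) (by omega)
          _ = 1 / 32 := pow_one _
      unfold Uu at h4
      linarith
    have h3 : (1 / 2 : ℝ) ≤ √((hI ^ ((K + m : ℕ) : ℤ)) p : ℝ) := by
      rw [show (1 / 2 : ℝ) = √(1 / 4) by
        rw [show (1 / 4 : ℝ) = (1 / 2) ^ 2 by norm_num, Real.sqrt_sq (by norm_num)]]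
      exact Real.sqrt_le_sqrt h2
    have h4 : 2 * (1 + (1 - √((hI ^ ((K + m : ℕ) : ℤ)) p : ℝ)) /
        (2 * √((hI ^ ((K + m : ℕ) : ℤ)) p : ℝ))) ≤ 3 := by
      have h5 : 2 * (1 + (1 - √((hI ^ ((K + m : ℕ) : ℤ)) p : ℝ)) /
        (2 * √((hI ^ ((K + m : ℕ) : ℤ)) p : ℝ))) = 1 + 1 / √((hI ^ ((K + m : ℕ) : ℤ)) p : ℝ) := by
        field_simp
        ring
      rw [h5]
      have h6 : 1 / √((hI ^ ((K + m : ℕ) : ℤ)) p : ℝ) ≤ 1 / (1 / 2) :=
        one_div_le_one_div_of_le (by norm_num) h3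
      linarith [show (1 : ℝ) / (1 / 2) = 2 by norm_num]
    calc _ ≤ 3 * Real.log ((1 - ((hI ^ ((K + m : ℕ) : ℤ)) p : ℝ)) /
          (1 - ((hI ^ ((K + m : ℕ) : ℤ)) bsI : ℝ))) :=
          mul_le_mul_of_nonneg_right h4 (hlog (K + m))
      _ ≤ 3 * (3 ^ m * ((2 + 1 / √la) ^ K * Real.log ((1 - (p : ℝ)) / (1 - (bsI : ℝ))))) :=
          mul_le_mul_of_nonneg_left ih (by norm_num)
      _ = _ := by ring

lemma gp_upper {K : ℕ} (hK : Uu K ≤ 1 / 32) {f : St} (hf : f ∈ Om) (m : ℕ) :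
    gp f (K + m : ℕ) ≤ 3 ^ m * ((2 + 1 / √la) ^ K * (2 / 2 ^ m)) := by
  have h1 := expand hK (p := ph f (K + m : ℕ)) (Om_lower hf _ : la ≤ (ph f (K + m : ℕ) : ℝ))
    (le_bs hf _ : (ph f (K + m : ℕ) : ℝ) ≤ bs) m
  rw [hz_ph] at h1
  unfold gp
  refine h1.trans ?_
  apply mul_le_mul_of_nonneg_left _ (by positivity)
  apply mul_le_mul_of_nonneg_left _ (by positivity)
  have h2 := cross_bs hf (K + m)
  have h3 : (0 : ℝ) < 1 - bs := by linarith [bs_lt]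
  have h4 : (0 : ℝ) < 1 - (ph f (K + m : ℕ) : ℝ) := by
    have := Om_upper hf ((K + m : ℕ) : ℤ)
    linarith [lb_lt]
  have h5 : (1 - (ph f (K + m : ℕ) : ℝ)) / (1 - (bsI : ℝ)) ≤ Real.exp (2 / 2 ^ (K + m)) := by
    show (1 - (ph f (K + m : ℕ) : ℝ)) / (1 - bs) ≤ _
    rw [div_le_iff₀ h3]
    rw [Real.exp_neg, ← div_eq_mul_inv, div_le_iff₀ (Real.exp_pos _)] at h2
    linarith
  have h6 := Real.log_le_log (div_pos h4 h3) h5
  rw [Real.log_exp] at h6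
  refine h6.trans ?_
  apply div_le_div_of_nonneg_left (by norm_num) (by positivity)
  exact pow_le_pow_right₀ (by norm_num) (by omega)

lemma eq_at {K : ℕ} (hK : Uu K ≤ 1 / 32) {f : St} (hf : f ∈ Om) : f K = Fs K := by
  have h0 := gp_nonneg hf K
  have hM : 0 < 2 + 1 / √la := by
    have : 0 < √la := Real.sqrt_pos.2 la_pos
    positivity
  have h1 : ∀ m : ℕ, gp f K ≤ 4 * (2 + 1 / √la) ^ K * (3 / 4) ^ m := by
    intro m
    have h2 := gp_lower hK hf m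
    have h3 := gp_upper hK (Om_iter hf m) m
    have h4 : (2 : ℝ) ^ m * (1 / 2) * gp f K ≤ 2 ^ m * (1 / 2 + 1 / 2 ^ (m + 1)) * gp f K := by
      apply mul_le_mul_of_nonneg_right _ h0
      apply mul_le_mul_of_nonneg_left _ (by positivity)
      have : (0 : ℝ) < 1 / 2 ^ (m + 1) := by positivity
      linarith
    have h5 := h4.trans (h2.trans h3)
    have h6 : (0 : ℝ) < 2 ^ m := by positivity
    have h7 : (3 / 4 : ℝ) ^ m = 3 ^ m / (2 ^ m * 2 ^ m) := by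
      rw [div_pow]
      congr 1
      rw [← mul_pow]
      norm_num
    rw [h7]
    have h8 : 4 * (2 + 1 / √la) ^ K * (3 ^ m / (2 ^ m * 2 ^ m)) =
        2 * (3 ^ m * ((2 + 1 / √la) ^ K * (2 / 2 ^ m))) / 2 ^ m := by
      field_simp
      ring
    rw [h8, le_div_iff₀ h6]
    linarith
  have h2 : Tendsto (fun m : ℕ => 4 * (2 + 1 / √la) ^ K * (3 / 4 : ℝ) ^ m) atTop
      (𝓝 (4 * (2 + 1 / √la) ^ K * 0)) :=
    (tendsto_pow_atTop_nhds_zero_of_lt_one (by norm_num) (by norm_num)).const_mul _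
  rw [mul_zero] at h2
  have h3 : gp f K ≤ 0 := ge_of_tendsto' h2 h1
  have h4 : gp f K = 0 := le_antisymm h3 h0
  unfold gp at h4
  have h5 : (f K : ℝ) ≤ Fs K := le_Fs hf K
  have h6 := Fs_lt K
  have h7 : 0 < (1 - (f K : ℝ)) / (1 - (Fs K : ℝ)) := div_pos (by linarith) (by linarith)
  have h8 := Real.eq_one_of_pos_of_log_eq_zero h7 h4
  rw [div_eq_one_iff_eq (by linarith)] at h8
  exact Subtype.ext (by linarith)

lemma eq_down {K : ℕ} (hK : Uu K ≤ 1 / 32) (i : ℕ) : ∀ {f : St}, f ∈ Om →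
    f ((K : ℤ) - i) = Fs ((K : ℤ) - i) := by
  induction i with
  | zero => intro f hf; simpa using eq_at hK hf
  | succ i ih =>
    intro f hf
    have h1 := ih (Om_Psi hf)
    have h2 : g (f ((K : ℤ) - i - 1)) (f ((K : ℤ) - i)) (f ((K : ℤ) - i + 1)) =
        Fs ((K : ℤ) - i) := congrArg Subtype.val h1
    set k : ℤ := (K : ℤ) - i - 1 with hk
    have e1 : (K : ℤ) - i = k + 1 := by rw [hk]; ring
    have e2 : (K : ℤ) - ((i + 1 : ℕ) : ℤ) = k := by rw [hk]; push_cast; ring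
    rw [e1] at h2
    rw [e2]
    have h3 : (Fs (k + 1) : ℝ) = g (Fs k) (Fs (k + 1)) (Fs (k + 1 + 1)) := by
      rw [Fs_succ (k + 1), Fs_succ k]
      exact (g_family (Fs k).2).symm
    rw [h3] at h2
    have h4 : (f k : ℝ) ≤ Fs k := le_Fs hf _
    have h5 : (f (k + 1) : ℝ) ≤ Fs (k + 1) := le_Fs hf _
    have h6 : (f (k + 1 + 1) : ℝ) ≤ Fs (k + 1 + 1) := le_Fs hf _
    exact Subtype.ext (g_strict (f k).2.1 (f (k + 1)).2.1 (f (k + 1 + 1)).2.1 (Fs k).2.2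
      (Fs (k + 1)).2.2 (Fs (k + 1 + 1)).2.2 h4 h5 h6 h2)

lemma eq_all {f : St} (hf : f ∈ Om) (k : ℤ) : f k = Fs k := by
  obtain ⟨K, hK⟩ := exists_small
  rcases le_or_gt k K with h1 | h1
  · obtain ⟨i, hi⟩ := Int.eq_ofNat_of_zero_le (show 0 ≤ (K : ℤ) - k by linarith)
    have := eq_down hK i hf
    rwa [show (K : ℤ) - i = k by linarith] at this
  · refine le_antisymm (le_Fs hf k) ?_
    have h2 : ph f K ≤ ph f k := ph_mono (Om_steep hf) h1.le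
    have h3 : ph f K = bsI := by
      unfold ph
      rw [eq_at hK hf]
      unfold Fs
      have : (hI ^ (-(K : ℤ))) ((hI ^ (K : ℤ)) bsI) = (hI ^ (-(K : ℤ)) * hI ^ (K : ℤ)) bsI := rfl
      rw [this, ← zpow_add, neg_add_cancel, zpow_zero]
      rfl
    rw [h3] at h2
    rw [← hz_ph f k]
    exact (hI ^ k).monotone h2

/-- **Pointwise convergence** of the distribution functions. -/
theorem conv (k : ℤ) : Tendsto (fun n => F n k) atTop (𝓝 (Fs k)) := by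
  rw [tendsto_iff_ultrafilter]
  intro U hU
  have : ∀ k : ℤ, ∃ l : unitInterval, Tendsto (fun n => F n k) U (𝓝 l) := by
    intro k
    obtain ⟨l, -, hl⟩ := isCompact_univ.ultrafilter_le_nhds (U.map fun n => F n k) (by simp)
    exact ⟨l, hl⟩
  choose f hf using this
  have hfO : f ∈ Om := ⟨U, hU, hf⟩
  rw [← eq_all hfO k]
  exact hf k

end Pool.Agent.R975.A87
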