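import Mathlib
import Pool.Agent.R975.A87.Conv

/-! Noisy min-max recursion on the binary tree: the law of the game value. -/

set_option autoImplicit false

namespace Pool.Agent.R975.A87

open Set Filter Topology MeasureTheory ProbabilityTheory

/-- Value of the vertex `v` when `m` levels remain below it: `0` if `m = 0`; otherwise the maximum
(if the height `|v|` is even) or the minimum (if it is odd) over the two children `u = b :: v` of
the cookie `x u` on the edge above `u` plus the value of `u`. -/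
def val (x : List Bool → ℤ) : ℕ → List Bool → ℤ
  | 0, _ => 0
  | m + 1, v =>
    if Even v.length then
      max (x (false :: v) + val x m (false :: v)) (x (true :: v) + val x m (true :: v))
    else
      min (x (false :: v) + val x m (false :: v)) (x (true :: v) + val x m (true :: v))

/-- the finite set of the vertices below `v` up to depth `m` -/
def Tr : ℕ → List Bool → Finset (List Bool)
  | 0, _ => ∅
  | m + 1, v => insert (false :: v) (Tr m (false :: v)) ∪ insert (true :: v) (Tr m (true :: v))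

lemma mem_Tr (m : ℕ) : ∀ (v u : List Bool), u ∈ Tr m v → ∃ w, w ≠ [] ∧ u = w ++ v := by
  induction m with
  | zero => intro v u hu; simp [Tr] at hu
  | succ m ih =>
    intro v u hu
    simp only [Tr, Finset.mem_union, Finset.mem_insert] at hu
    rcases hu with (h | h) | (h | h)
    · exact ⟨[false], by simp, by simp [h]⟩
    · obtain ⟨w, hw, rfl⟩ := ih _ _ h
      exact ⟨w ++ [false], by simp, by simp⟩
    · exact ⟨[true], by simp, by simp [h]⟩
    · obtain ⟨w, hw, rfl⟩ := ih _ _ h
      exact ⟨w ++ [true], by simp, by simp⟩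

lemma mem_Tr' (m : ℕ) (v u : List Bool) (h : u ∈ insert v (Tr m v)) : ∃ w, u = w ++ v := by
  rcases Finset.mem_insert.1 h with rfl | h
  · exact ⟨[], rfl⟩
  · obtain ⟨w, -, hw⟩ := mem_Tr m v u h
    exact ⟨w, hw⟩

lemma self_notMem (m : ℕ) (v : List Bool) : v ∉ Tr m v := by
  intro h
  obtain ⟨w, hw, hv⟩ := mem_Tr m v v h
  have := congrArg List.length hv
  simp at this
  exact hw this

lemma disj (m : ℕ) (v : List Bool) : Disjoint (insert (false :: v) (Tr m (false :: v)))
    (insert (true :: v) (Tr m (true :: v))) := by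
  rw [Finset.disjoint_left]
  intro u h1 h2
  obtain ⟨w, hw⟩ := mem_Tr' _ _ _ h1
  obtain ⟨w', hw'⟩ := mem_Tr' _ _ _ h2
  rw [hw] at hw'
  have := (List.append_inj' hw' (by simp)).2
  simp at this

lemma val_congr (x x' : List Bool → ℤ) (m : ℕ) : ∀ v, (∀ u ∈ Tr m v, x u = x' u) →
    val x m v = val x' m v := by
  induction m with
  | zero => intro v _; rfl
  | succ m ih =>
    intro v hv
    have h1 := ih (false :: v) (fun u hu => hv u (by
      simp only [Tr, Finset.mem_union, Finset.mem_insert]; exact Or.inl (Or.inr hu)))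
    have h2 := ih (true :: v) (fun u hu => hv u (by
      simp only [Tr, Finset.mem_union, Finset.mem_insert]; exact Or.inr (Or.inr hu)))
    have h3 := hv (false :: v) (by simp [Tr])
    have h4 := hv (true :: v) (by simp [Tr])
    simp only [val, h1, h2, h3, h4]

section prob

variable {Ω : Type*} [MeasurableSpace Ω] {P : Measure Ω} [IsProbabilityMeasure P]
  {X : List Bool → Ω → ℤ}

/-- dependence on a finite set of coordinates -/
def Dep (S : Finset (List Bool)) (a : (List Bool → ℤ) → ℤ) : Prop :=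
  ∀ x x', (∀ u ∈ S, x u = x' u) → a x = a x'

open Classical in
/-- extension by zero -/
noncomputable def ext0 (S : Finset (List Bool)) (y : S → ℤ) : List Bool → ℤ :=
  fun u => if h : u ∈ S then y ⟨u, h⟩ else 0

omit [MeasurableSpace Ω] in
lemma dep_eq {S : Finset (List Bool)} {a : (List Bool → ℤ) → ℤ} (ha : Dep S a) (ω : Ω) :
    a (fun u => X u ω) = (fun y : S → ℤ => a (ext0 S y)) (fun i : S => X i ω) := by
  apply ha
  intro u hu
  simp [ext0, hu]

lemma dep_meas {S : Finset (List Bool)} {a : (List Bool → ℤ) → ℤ} (ha : Dep S a)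
    (hX : ∀ v, Measurable (X v)) : Measurable fun ω => a (fun u => X u ω) := by
  have h1 : Measurable (fun y : S → ℤ => a (ext0 S y)) := Measurable.of_discrete
  have h2 : Measurable (fun ω (i : S) => X i ω) := measurable_pi_lambda _ fun i => hX i
  have h3 := h1.comp h2
  have e : (fun ω => a (fun u => X u ω)) = (fun y : S → ℤ => a (ext0 S y)) ∘
      (fun ω (i : S) => X i ω) := by
    funext ω
    exact dep_eq ha ω
  rw [e]
  exact h3

omit [IsProbabilityMeasure P] in
lemma dep_indep {S T : Finset (List Bool)} (hST : Disjoint S T) {a b : (List Bool → ℤ) → ℤ}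
    (ha : Dep S a) (hb : Dep T b) (hX : ∀ v, Measurable (X v)) (hind : iIndepFun X P) :
    IndepFun (fun ω => a (fun u => X u ω)) (fun ω => b (fun u => X u ω)) P := by
  have h := hind.indepFun_finset S T hST hX
  have h1 : Measurable (fun y : S → ℤ => a (ext0 S y)) := Measurable.of_discrete
  have h2 : Measurable (fun y : T → ℤ => b (ext0 T y)) := Measurable.of_discrete
  have h3 := h.comp h1 h2
  have e1 : (fun ω => a (fun u => X u ω)) = (fun y : S → ℤ => a (ext0 S y)) ∘
      (fun ω (i : S) => X i ω) := by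
    funext ω
    exact dep_eq ha ω
  have e2 : (fun ω => b (fun u => X u ω)) = (fun y : T → ℤ => b (ext0 T y)) ∘
      (fun ω (i : T) => X i ω) := by
    funext ω
    exact dep_eq hb ω
  rw [e1, e2]
  exact h3

lemma dep_val (m : ℕ) (v : List Bool) : Dep (Tr m v) (fun x => val x m v) :=
  fun x x' h => val_congr x x' m v h

lemma dep_coord (v : List Bool) : Dep {v} (fun x => x v) :=
  fun _ _ h => h v (Finset.mem_singleton_self v)

lemma dep_Y (m : ℕ) (v : List Bool) : Dep (insert v (Tr m v)) (fun x => x v + val x m v) := by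
  intro x x' h
  have h1 := h v (Finset.mem_insert_self _ _)
  have h2 := val_congr x x' m v fun u hu => h u (Finset.mem_insert_of_mem hu)
  simp only [h1, h2]

/-- distribution function of the value of `v` -/
noncomputable def cd (P : Measure Ω) (X : List Bool → Ω → ℤ) (m : ℕ) (v : List Bool) (i : ℤ) : ℝ :=
  P.real {ω | val (fun u => X u ω) m v ≤ i}

/-- distribution function of cookie plus value -/
lemma cd_add (hX : ∀ v, Measurable (X v)) (hind : iIndepFun X P)
    (hlaw : ∀ v, P.real {ω | X v ω = 1} = 1 / 2 ∧ P.real {ω | X v ω = -1} = 1 / 2)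
    (m : ℕ) (v : List Bool) (i : ℤ) :
    P.real {ω | X v ω + val (fun u => X u ω) m v ≤ i} =
      (cd P X m v (i - 1) + cd P X m v (i + 1)) / 2 := by
  have hW := dep_meas (dep_val m v) hX
  have hind2 := dep_indep (S := {v}) (T := Tr m v)
    (Finset.disjoint_singleton_left.2 (self_notMem m v)) (dep_coord v) (dep_val m v) hX hind
  obtain ⟨h1, h2⟩ := hlaw v
  have hprod : ∀ (c j : ℤ), P.real ({ω | X v ω = c} ∩ {ω | val (fun u => X u ω) m v ≤ j}) =
      P.real {ω | X v ω = c} * P.real {ω | val (fun u => X u ω) m v ≤ j} := by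
    intro c j
    have := hind2.measure_inter_preimage_eq_mul {c} (Iic j) (measurableSet_singleton c)
      measurableSet_Iic
    have h3 := congrArg ENNReal.toReal this
    rw [ENNReal.toReal_mul] at h3
    exact h3
  have hm1 : MeasurableSet {ω | X v ω = 1} := hX v (measurableSet_singleton 1)
  have hm2 : MeasurableSet {ω | X v ω = -1} := hX v (measurableSet_singleton (-1))
  have hdisj : Disjoint {ω | X v ω = 1} {ω | X v ω = -1} := by
    rw [Set.disjoint_left]
    intro ω h1 h2
    have h1' : X v ω = 1 := h1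
    have h2' : X v ω = -1 := h2
    omega
  have hfull : P.real ({ω | X v ω = 1} ∪ {ω | X v ω = -1})ᶜ = 0 := by
    rw [probReal_compl_eq_one_sub (hm1.union hm2), measureReal_union hdisj hm2, h1, h2]
    norm_num
  set Z := {ω | X v ω + val (fun u => X u ω) m v ≤ i} with hZ
  have hZm : MeasurableSet Z := by
    have : Measurable fun ω => X v ω + val (fun u => X u ω) m v := (hX v).add hW
    exact this measurableSet_Iic
  have e1 : P.real Z = P.real (Z ∩ ({ω | X v ω = 1} ∪ {ω | X v ω = -1})) := by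
    have h3 := measureReal_inter_add_diff (μ := P) (s := Z) (hm1.union hm2)
    have h4 : P.real (Z \ ({ω | X v ω = 1} ∪ {ω | X v ω = -1})) = 0 := by
      refine le_antisymm ?_ measureReal_nonneg
      rw [← hfull]
      exact measureReal_mono fun ω hω => hω.2
    linarith
  have e2 : Z ∩ ({ω | X v ω = 1} ∪ {ω | X v ω = -1}) =
      ({ω | X v ω = 1} ∩ {ω | val (fun u => X u ω) m v ≤ i - 1}) ∪
      ({ω | X v ω = -1} ∩ {ω | val (fun u => X u ω) m v ≤ i + 1}) := by
    ext ω
    simp only [hZ, mem_inter_iff, mem_union, Set.mem_setOf_eq]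
    constructor
    · rintro ⟨h3, h4 | h4⟩
      · left; exact ⟨h4, by omega⟩
      · right; exact ⟨h4, by omega⟩
    · rintro (⟨h3, h4⟩ | ⟨h3, h4⟩)
      · exact ⟨by omega, Or.inl h3⟩
      · exact ⟨by omega, Or.inr h3⟩
  have hm3 : MeasurableSet ({ω | X v ω = -1} ∩ {ω | val (fun u => X u ω) m v ≤ i + 1}) :=
    hm2.inter (hW measurableSet_Iic)
  rw [e1, e2, measureReal_union (hdisj.mono inter_subset_left inter_subset_left)
    hm3, hprod, hprod, h1, h2]
  unfold cd
  ring

lemma Y_indep (hX : ∀ v, Measurable (X v)) (hind : iIndepFun X P) (m : ℕ) (v : List Bool) :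
    IndepFun (fun ω => X (false :: v) ω + val (fun u => X u ω) m (false :: v))
      (fun ω => X (true :: v) ω + val (fun u => X u ω) m (true :: v)) P :=
  dep_indep (disj m v) (dep_Y m (false :: v)) (dep_Y m (true :: v)) hX hind

/-- the recursion of the distribution functions -/
noncomputable def G : ℕ → Bool → ℤ → ℝ
  | 0, _, i => if 0 ≤ i then 1 else 0
  | m + 1, true, i => ((G m false (i - 1) + G m false (i + 1)) / 2) ^ 2
  | m + 1, false, i => 1 - (1 - (G m true (i - 1) + G m true (i + 1)) / 2) ^ 2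

lemma cd_eq (hX : ∀ v, Measurable (X v)) (hind : iIndepFun X P)
    (hlaw : ∀ v, P.real {ω | X v ω = 1} = 1 / 2 ∧ P.real {ω | X v ω = -1} = 1 / 2) (m : ℕ) :
    ∀ v i, cd P X m v i = G m (decide (Even v.length)) i := by
  induction m with
  | zero =>
    intro v i
    unfold cd G
    simp only [val]
    by_cases hi : 0 ≤ i
    · simp [hi]
    · simp [hi]
  | succ m ih =>
    intro v i
    have hY := Y_indep hX hind m v
    have hmf : Measurable fun ω => X (false :: v) ω + val (fun u => X u ω) m (false :: v) :=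
      (hX _).add (dep_meas (dep_val m _) hX)
    have hmt : Measurable fun ω => X (true :: v) ω + val (fun u => X u ω) m (true :: v) :=
      (hX _).add (dep_meas (dep_val m _) hX)
    have hcf := cd_add hX hind hlaw m (false :: v) i
    have hct := cd_add hX hind hlaw m (true :: v) i
    by_cases hv : Even v.length
    · have hd : ∀ b : Bool, decide (Even (b :: v).length) = false := by
        intro b
        simp only [List.length_cons, decide_eq_false_iff_not]
        rw [Nat.even_add_one]
        simpa using hv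
      have hd2 : decide (Even v.length) = true := by simpa using hv
      rw [hd2]
      simp only [ih, hd] at hcf hct
      have e : {ω | val (fun u => X u ω) (m + 1) v ≤ i} =
          (fun ω => X (false :: v) ω + val (fun u => X u ω) m (false :: v)) ⁻¹' (Iic i) ∩
          (fun ω => X (true :: v) ω + val (fun u => X u ω) m (true :: v)) ⁻¹' (Iic i) := by
        ext ω
        simp only [Set.mem_setOf_eq, val, if_pos hv, max_le_iff, mem_inter_iff, mem_preimage,
          mem_Iic]
      have h3 := hY.measure_inter_preimage_eq_mul (Iic i) (Iic i) measurableSet_Iic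
        measurableSet_Iic
      have h4 := congrArg ENNReal.toReal h3
      rw [ENNReal.toReal_mul] at h4
      unfold cd
      rw [e]
      refine h4.trans ?_
      show P.real {ω | X (false :: v) ω + val (fun u => X u ω) m (false :: v) ≤ i} *
        P.real {ω | X (true :: v) ω + val (fun u => X u ω) m (true :: v) ≤ i} = _
      rw [hcf, hct, G]
      ring
    · have hd : ∀ b : Bool, decide (Even (b :: v).length) = true := by
        intro b
        simp only [List.length_cons, decide_eq_true_eq]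
        rw [Nat.even_add_one]
        exact hv
      have hd2 : decide (Even v.length) = false := by simpa using hv
      rw [hd2]
      simp only [ih, hd] at hcf hct
      have e : {ω | val (fun u => X u ω) (m + 1) v ≤ i} =
          ((fun ω => X (false :: v) ω + val (fun u => X u ω) m (false :: v)) ⁻¹' (Iic i)ᶜ ∩
          (fun ω => X (true :: v) ω + val (fun u => X u ω) m (true :: v)) ⁻¹' (Iic i)ᶜ)ᶜ := by
        ext ω
        simp only [Set.mem_setOf_eq, val, if_neg hv, min_le_iff, mem_inter_iff, mem_preimage,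
          mem_Iic, mem_compl_iff]
        tauto
      have h3 := hY.measure_inter_preimage_eq_mul (Iic i)ᶜ (Iic i)ᶜ measurableSet_Iic.compl
        measurableSet_Iic.compl
      have h4 := congrArg ENNReal.toReal h3
      rw [ENNReal.toReal_mul] at h4
      unfold cd
      rw [e, probReal_compl_eq_one_sub ((hmf measurableSet_Iic.compl).inter
        (hmt measurableSet_Iic.compl))]
      have h5 : P.real ((fun ω => X (false :: v) ω + val (fun u => X u ω) m (false :: v)) ⁻¹'
          (Iic i)ᶜ) = 1 - P.real {ω | X (false :: v) ω + val (fun u => X u ω) m (false :: v) ≤ i} := by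
        rw [preimage_compl, probReal_compl_eq_one_sub (hmf measurableSet_Iic)]
        rfl
      have h6 : P.real ((fun ω => X (true :: v) ω + val (fun u => X u ω) m (true :: v)) ⁻¹'
          (Iic i)ᶜ) = 1 - P.real {ω | X (true :: v) ω + val (fun u => X u ω) m (true :: v) ≤ i} := by
        rw [preimage_compl, probReal_compl_eq_one_sub (hmt measurableSet_Iic)]
        rfl
      have h7 : P.real ((fun ω => X (false :: v) ω + val (fun u => X u ω) m (false :: v)) ⁻¹' (Iic i)ᶜ ∩
          (fun ω => X (true :: v) ω + val (fun u => X u ω) m (true :: v)) ⁻¹' (Iic i)ᶜ) =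
          P.real ((fun ω => X (false :: v) ω + val (fun u => X u ω) m (false :: v)) ⁻¹'
          (Iic i)ᶜ) * P.real ((fun ω => X (true :: v) ω + val (fun u => X u ω) m (true :: v)) ⁻¹'
          (Iic i)ᶜ) := h4
      rw [h7, h5, h6, hcf, hct, G]
      ring

lemma G_eq (n : ℕ) : ∀ i : ℤ, G (2 * n) true i = (F n (i / 2) : ℝ) := by
  induction n with
  | zero =>
    intro i
    show (if 0 ≤ i then (1 : ℝ) else 0) = ((if 0 ≤ i / 2 then (1 : unitInterval) else 0 : unitInterval) : ℝ)
    by_cases hi : 0 ≤ i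
    · rw [if_pos hi, if_pos (by omega)]
      rfl
    · rw [if_neg hi, if_neg (by omega)]
      rfl
  | succ n ih =>
    intro i
    show ((G (2 * n + 1) false (i - 1) + G (2 * n + 1) false (i + 1)) / 2) ^ 2 = _
    have h1 : ∀ j, G (2 * n + 1) false j = 1 - (1 - (G (2 * n) true (j - 1) +
        G (2 * n) true (j + 1)) / 2) ^ 2 := fun j => rfl
    rw [h1, h1]
    simp only [ih]
    have e1 : (i - 1 - 1) / 2 = i / 2 - 1 := by omega
    have e2 : (i - 1 + 1) / 2 = i / 2 := by omega
    have e3 : (i + 1 - 1) / 2 = i / 2 := by omega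
    have e4 : (i + 1 + 1) / 2 = i / 2 + 1 := by omega
    rw [e1, e2, e3, e4]
    rfl

/-- the distribution function of `V_n` -/
lemma cdf_V (hX : ∀ v, Measurable (X v)) (hind : iIndepFun X P)
    (hlaw : ∀ v, P.real {ω | X v ω = 1} = 1 / 2 ∧ P.real {ω | X v ω = -1} = 1 / 2) (n : ℕ) (i : ℤ) :
    P.real {ω | val (fun u => X u ω) (2 * n) [] ≤ i} = F n (i / 2) := by
  have := cd_eq hX hind hlaw (2 * n) [] i
  unfold cd at this
  rw [this, ← G_eq]
  simp

end prob

/-! ### The limit law -/

lemma Fs_mono : Monotone fun k : ℤ => (Fs k : ℝ) := by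
  refine monotone_int_of_le_succ fun k => ?_
  rw [Fs_succ]
  have h1 := one_sub_h_le (Fs k).2
  have h5 := (Fs k).2.1
  have h6 := (Fs k).2.2
  nlinarith

lemma Fs_top : Tendsto (fun k : ℤ => (Fs k : ℝ)) atTop (𝓝 1) := by
  have hbs0 : 0 < bs := la_pos.trans_le la_le_bs
  have h1 : ∀ n : ℕ, 1 - (Fs n : ℝ) ≤ (1 - bs) ^ (n + 1) := by
    intro n
    induction n with
    | zero =>
      have : Fs ((0 : ℕ) : ℤ) = bsI := by simp [Fs]
      rw [this]
      simp [bsI]
    | succ n ih =>
      push_cast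
      rw [Fs_succ]
      have h2 := one_sub_h_le (Fs n).2
      have h3 : 0 ≤ 1 - (Fs n : ℝ) := by linarith [(Fs n).2.2]
      have h4 : 0 ≤ 1 - bs := by linarith [bs_lt]
      calc 1 - h (Fs n) ≤ (1 - (Fs n : ℝ)) ^ 2 := h2
        _ ≤ ((1 - bs) ^ (n + 1)) ^ 2 := pow_le_pow_left₀ h3 ih 2
        _ = (1 - bs) ^ (2 * n + 2) := by rw [← pow_mul]; ring_nf
        _ ≤ (1 - bs) ^ (n + 1 + 1) := pow_le_pow_of_le_one h4 (by linarith) (by omega)
  have h2 : Tendsto (fun n : ℕ => 1 - (1 - bs) ^ (n + 1)) atTop (𝓝 (1 - 0)) :=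
    ((tendsto_pow_atTop_nhds_zero_of_lt_one (by linarith [bs_lt]) (by linarith)).comp
      (tendsto_add_atTop_nat 1)).const_sub 1
  rw [sub_zero] at h2
  have h3 : Tendsto (fun n : ℕ => (Fs n : ℝ)) atTop (𝓝 1) :=
    tendsto_of_tendsto_of_tendsto_of_le_of_le h2 tendsto_const_nhds
      (fun n => by have := h1 n; simp only; linarith) (fun n => (Fs n).2.2)
  refine tendsto_order.2 ⟨fun a ha => ?_, fun a ha => ?_⟩
  · obtain ⟨n, hn⟩ := (h3.eventually (eventually_gt_nhds ha)).exists
    filter_upwards [eventually_ge_atTop (n : ℤ)] with k hk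
    exact lt_of_lt_of_le hn (Fs_mono hk)
  · exact Eventually.of_forall fun k => lt_of_le_of_lt (Fs k).2.2 ha

lemma hv_le {p : ℝ} (hp : p ∈ Icc (0 : ℝ) 1) : hv p ≤ p ^ 2 := by
  have h4 : √(1 - p) ≤ 1 := Real.sqrt_le_one.mpr (by linarith [hp.1])
  have h5 := Real.sq_sqrt (show 0 ≤ 1 - p by linarith [hp.2])
  have h6 := Real.sqrt_nonneg (1 - p)
  have h3 : 1 - p ≤ √(1 - p) := by nlinarith
  unfold hv
  nlinarith

lemma Fs_pred (k : ℤ) : (Fs (k - 1) : ℝ) = hv (Fs k) := by
  have h1 := Fs_succ (k - 1)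
  rw [sub_add_cancel] at h1
  rw [h1, hv_h (Fs (k - 1)).2]

lemma Fs_bot : Tendsto (fun k : ℤ => (Fs k : ℝ)) atBot (𝓝 0) := by
  have hbs0 : 0 < bs := la_pos.trans_le la_le_bs
  have h1 : ∀ n : ℕ, (Fs (-(n : ℤ)) : ℝ) ≤ bs ^ (n + 1) := by
    intro n
    induction n with
    | zero =>
      have : Fs (-((0 : ℕ) : ℤ)) = bsI := by simp [Fs]
      rw [this]
      simp [bsI]
    | succ n ih =>
      rw [show -((n + 1 : ℕ) : ℤ) = -(n : ℤ) - 1 by push_cast; ring, Fs_pred]
      have h2 := hv_le (Fs (-(n : ℤ))).2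
      calc hv (Fs (-(n : ℤ))) ≤ (Fs (-(n : ℤ)) : ℝ) ^ 2 := h2
        _ ≤ (bs ^ (n + 1)) ^ 2 := pow_le_pow_left₀ (Fs (-(n : ℤ))).2.1 ih 2
        _ = bs ^ (2 * n + 2) := by rw [← pow_mul]; ring_nf
        _ ≤ bs ^ (n + 1 + 1) := pow_le_pow_of_le_one hbs0.le bs_lt.le (by omega)
  have h2 : Tendsto (fun n : ℕ => bs ^ (n + 1)) atTop (𝓝 0) :=
    (tendsto_pow_atTop_nhds_zero_of_lt_one hbs0.le bs_lt).comp (tendsto_add_atTop_nat 1)
  have h3 : Tendsto (fun n : ℕ => (Fs (-(n : ℤ)) : ℝ)) atTop (𝓝 0) :=
    tendsto_of_tendsto_of_tendsto_of_le_of_le tendsto_const_nhds h2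
      (fun n => (Fs (-(n : ℤ))).2.1) h1
  refine tendsto_order.2 ⟨fun a ha => ?_, fun a ha => ?_⟩
  · exact Eventually.of_forall fun k => lt_of_lt_of_le ha (Fs k).2.1
  · obtain ⟨n, hn⟩ := (h3.eventually (eventually_lt_nhds ha)).exists
    filter_upwards [eventually_le_atBot (-(n : ℤ))] with k hk
    exact lt_of_le_of_lt (Fs_mono hk) hn

lemma floor_half_mono : Monotone fun x : ℝ => ⌊x⌋ / 2 := fun x y hxy =>
  Int.ediv_le_ediv (by norm_num) (Int.floor_mono hxy)

/-- the limit distribution function as a Stieltjes function -/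
noncomputable def sf : StieltjesFunction ℝ where
  toFun x := Fs (⌊x⌋ / 2)
  mono' := fun x y hxy => Fs_mono (floor_half_mono hxy)
  right_continuous' := by
    intro x
    have h1 := tendsto_floor_right_pure_floor (α := ℝ) x
    have h2 : Tendsto (fun y : ℝ => (Fs (⌊y⌋ / 2) : ℝ)) (𝓝[≥] x) (pure (Fs (⌊x⌋ / 2) : ℝ)) :=
      (tendsto_pure_pure (fun k : ℤ => (Fs (k / 2) : ℝ)) ⌊x⌋).comp h1
    exact h2.mono_right (pure_le_nhds _)

lemma sf_top : Tendsto sf atTop (𝓝 1) := by
  refine Fs_top.comp (tendsto_atTop.2 fun b => ?_)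
  filter_upwards [eventually_ge_atTop ((2 * b : ℤ) : ℝ)] with x hx
  have : 2 * b ≤ ⌊x⌋ := Int.le_floor.2 hx
  omega

lemma sf_bot : Tendsto sf atBot (𝓝 0) := by
  refine Fs_bot.comp (tendsto_atBot.2 fun b => ?_)
  filter_upwards [eventually_le_atBot ((2 * b : ℤ) : ℝ)] with x hx
  have : ⌊x⌋ ≤ 2 * b := by
    have := Int.floor_mono hx
    rwa [Int.floor_intCast] at this
  omega

/-- the limit law -/
noncomputable def lim : ProbabilityMeasure ℝ :=
  ⟨sf.measure, sf.isProbabilityMeasure sf_bot sf_top⟩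

lemma lim_Iic (i : ℤ) : (lim : Measure ℝ).real (Iic (i : ℝ)) = Fs (i / 2) := by
  show (sf.measure (Iic (i : ℝ))).toReal = _
  rw [sf.measure_Iic sf_bot, sub_zero]
  have : sf (i : ℝ) = Fs (i / 2) := by
    show (Fs (⌊(i : ℝ)⌋ / 2) : ℝ) = _
    rw [Int.floor_intCast]
  rw [this, ENNReal.toReal_ofReal (Fs (i / 2)).2.1]

section final

variable {Ω : Type*} [MeasurableSpace Ω] {P : Measure Ω} [IsProbabilityMeasure P]
  {X : List Bool → Ω → ℤ}

lemma V_meas (hX : ∀ v, Measurable (X v)) (n : ℕ) :
    Measurable fun ω => ((val (fun u => X u ω) (2 * n) [] : ℤ) : ℝ) := by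
  have h1 := dep_meas (dep_val (2 * n) []) hX
  exact (measurable_of_countable (fun z : ℤ => (z : ℝ))).comp h1

theorem weak (hX : ∀ v, Measurable (X v)) (hind : iIndepFun X P)
    (hlaw : ∀ v, P.real {ω | X v ω = 1} = 1 / 2 ∧ P.real {ω | X v ω = -1} = 1 / 2) :
    Tendsto (β := ProbabilityMeasure ℝ) (fun n : ℕ =>
      ⟨P.map fun ω => ((val (fun u => X u ω) (2 * n) [] : ℤ) : ℝ),
        Measure.isProbabilityMeasure_map (V_meas hX n).aemeasurable⟩) atTop (𝓝 lim) := by
  refine IsPiSystem.tendsto_probabilityMeasure_of_tendsto_of_mem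
    (S := {S : Set ℝ | ∃ l ∈ (univ : Set ℝ), ∃ u ∈ (univ : Set ℝ), l < u ∧ Ioc l u = S})
    (isPiSystem_Ioc_mem univ univ) ?_ ?_ ?_
  · rintro s ⟨l, -, u, -, -, rfl⟩
    exact measurableSet_Ioc
  · intro u hu x hx
    obtain ⟨ε, hε, hsub⟩ := Metric.isOpen_iff.1 hu x hx
    refine ⟨Ioc (x - ε / 2) (x + ε / 2), ⟨_, mem_univ _, _, mem_univ _, by linarith, rfl⟩,
      Ioc_mem_nhds (by linarith) (by linarith), fun y hy => hsub ?_⟩
    rw [Metric.mem_ball, Real.dist_eq, abs_lt]
    constructor <;> linarith [hy.1, hy.2]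
  · rintro s ⟨a, -, b, -, hab, rfl⟩
    have hn : ∀ n : ℕ, (P.map fun ω => ((val (fun u => X u ω) (2 * n) [] : ℤ) : ℝ)).real (Ioc a b)
        = (F n (⌊b⌋ / 2) : ℝ) - F n (⌊a⌋ / 2) := by
      intro n
      have hm := dep_meas (dep_val (2 * n) []) hX
      rw [map_measureReal_apply (V_meas hX n) measurableSet_Ioc,
        ← cdf_V hX hind hlaw n ⌊b⌋, ← cdf_V hX hind hlaw n ⌊a⌋]
      rw [← measureReal_diff]
      · congr 1
        ext ω
        simp only [mem_preimage, mem_Ioc, mem_diff, Set.mem_setOf_eq, not_le, Int.floor_lt,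
          Int.le_floor]
        tauto
      · intro ω hω
        have hω' : val (fun u => X u ω) (2 * n) [] ≤ ⌊a⌋ := hω
        exact hω'.trans (Int.floor_mono hab.le)
      · exact hm measurableSet_Iic
    have hl : (lim : Measure ℝ).real (Ioc a b) = (Fs (⌊b⌋ / 2) : ℝ) - Fs (⌊a⌋ / 2) := by
      show (sf.measure (Ioc a b)).toReal = _
      rw [sf.measure_Ioc, ENNReal.toReal_ofReal (sub_nonneg.2 (sf.mono hab.le))]
      rfl
    rw [← NNReal.tendsto_coe]
    have h1 : Tendsto (fun n => (F n (⌊b⌋ / 2) : ℝ) - F n (⌊a⌋ / 2)) atTop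
        (𝓝 ((Fs (⌊b⌋ / 2) : ℝ) - Fs (⌊a⌋ / 2))) :=
      ((continuous_subtype_val.tendsto _).comp (conv _)).sub
        ((continuous_subtype_val.tendsto _).comp (conv _))
    rw [← hl] at h1
    refine Tendsto.congr (fun n => ?_) h1
    exact (hn n).symm

end final

end Pool.Agent.R975.A87
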